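import Pool.Agent.U187.PT.Avg

set_option autoImplicit false

/-! The Hardy-Littlewood formula for almost all sets of shifts, in both variables. -/

namespace Pool.Agent.U187.PT

open Finset Filter Topology Pool.Agent.H387R2 Pool.Agent.TH891.SG

/-- sets of shifts which are bad give many bad sets, by translation -/
lemma low_card (k N t M : ℕ) {δ : ℝ} (𝒟 : Finset (Finset ℕ)) (hM : M + t ≤ HN k N)
    (h𝒟 : ∀ D ∈ 𝒟, D.card = k ∧ D ⊆ Icc 2 M ∧ 0 < Uni.CT (insert 0 D) ∧
      (cnt N (insert 0 D) : ℝ) < (1 - δ) * ((N / Real.log N ^ (k + 1)) * Uni.CT (insert 0 D))) :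
    𝒟.card * t ≤ (badT k N δ).card := by
  classical
  have e1 : (𝒟 ×ˢ range t).card = 𝒟.card * t := by rw [card_product, card_range]
  rw [← e1]
  have h0 : ∀ D ∈ 𝒟, 0 ∉ D := by
    intro D hD h
    have := (mem_Icc.1 ((h𝒟 D hD).2.1 h)).1
    omega
  apply card_le_card_of_injOn (fun z => (insert 0 z.1).image (· + z.2))
  · intro z hz
    obtain ⟨hz1, hz2⟩ := mem_product.1 hz
    obtain ⟨c1, c2, c3, c4⟩ := h𝒟 z.1 hz1
    rw [mem_range] at hz2
    have hA : Uni.Adm (insert 0 z.1) := (CT_pos_iff _).1 c3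
    simp only [badT, coe_filter, Set.mem_ofPred_eq, mem_powersetCard]
    refine ⟨⟨?_, ?_⟩, ?_, ?_⟩
    · intro u hu
      rw [mem_image] at hu
      obtain ⟨v, hv, rfl⟩ := hu
      rw [mem_range]
      have hvM : v ≤ M := by
        rw [mem_insert] at hv
        rcases hv with rfl | hv
        · exact Nat.zero_le _
        · exact (mem_Icc.1 (c2 hv)).2
      omega
    · rw [card_add, card_insert_of_notMem (h0 z.1 hz1), c1]
    · rw [CT_add]; exact c3
    · rw [CT_add, piT_add (mem_insert_self 0 z.1) z.2 N hA, pc_eq]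
      exact c4
  · intro z hz w hw he
    obtain ⟨hz1, -⟩ := mem_product.1 hz
    obtain ⟨hw1, -⟩ := mem_product.1 hw
    simp only at he
    have h1 : z.2 ∈ (insert 0 w.1).image (· + w.2) := by
      rw [← he, mem_image]
      exact ⟨0, mem_insert_self _ _, by simp⟩
    have h2 : w.2 ∈ (insert 0 z.1).image (· + z.2) := by
      rw [he, mem_image]
      exact ⟨0, mem_insert_self _ _, by simp⟩
    have h3 : z.2 = w.2 := by
      obtain ⟨a, _, ha⟩ := mem_image.1 h1
      obtain ⟨b, _, hb⟩ := mem_image.1 h2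
      omega
    rw [h3] at he
    have h4 := image_injective (add_left_injective w.2) he
    have h5 : z.1 = w.1 := by
      rw [← erase_insert (h0 z.1 hz1), h4, erase_insert (h0 w.1 hw1)]
    exact Prod.ext h5 h3

open Classical in
lemma high_card (k M H : ℕ) (hk : 1 ≤ k) :
    (((Icc 2 H).powersetCard k).filter (fun D => ¬ D ⊆ Icc 2 M)).card ≤ (H - M) * H ^ (k - 1) := by
  have h1 : ((Icc 2 H).powersetCard k).filter (fun D => ¬ D ⊆ Icc 2 M) ⊆
      ((Ioc M H) ×ˢ ((Icc 2 H).powersetCard (k - 1))).image (fun z => insert z.1 z.2) := by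
    intro D hD
    rw [mem_filter, mem_powersetCard] at hD
    obtain ⟨⟨hD1, hD2⟩, hD3⟩ := hD
    rw [not_subset] at hD3
    obtain ⟨d, hd, hd'⟩ := hD3
    rw [mem_image]
    refine ⟨(d, D.erase d), mem_product.2 ⟨?_, ?_⟩, insert_erase hd⟩
    · have h2 := mem_Icc.1 (hD1 hd)
      rw [mem_Icc, not_and] at hd'
      have h3 := hd' h2.1
      rw [mem_Ioc]
      dsimp only
      omega
    · rw [mem_powersetCard]
      exact ⟨(erase_subset _ _).trans hD1, by rw [card_erase_of_mem hd, hD2]⟩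
  refine (card_le_card h1).trans (card_image_le.trans ?_)
  rw [card_product, Nat.card_Ioc, card_powersetCard, Nat.card_Icc]
  apply Nat.mul_le_mul_left
  refine (Nat.choose_le_pow _ _).trans ?_
  exact Nat.pow_le_pow_left (by omega) _

lemma shifts_card (k H : ℕ) (hH : 2 * k ≤ H) :
    ((H : ℝ) / 2) ^ k / k.factorial ≤ (((Icc 2 H).powersetCard k).card : ℝ) := by
  rw [card_powersetCard, Nat.card_Icc, div_le_iff₀ (by exact_mod_cast k.factorial_pos)]
  rcases Nat.eq_zero_or_pos k with rfl | hk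
  · simp
  have h1 := Nat.pow_sub_le_descFactorial (H + 1 - 2) k
  rw [Nat.descFactorial_eq_factorial_mul_choose] at h1
  have h2 : (((H + 1 - 2 + 1 - k : ℕ) : ℝ)) ^ k ≤ (k.factorial : ℝ) * ((H + 1 - 2).choose k : ℝ) := by
    exact_mod_cast h1
  have h3 : (H : ℝ) / 2 ≤ ((H + 1 - 2 + 1 - k : ℕ) : ℝ) := by
    have h4 : H ≤ 2 * (H + 1 - 2 + 1 - k) := by omega
    have h5 : (H : ℝ) ≤ 2 * ((H + 1 - 2 + 1 - k : ℕ) : ℝ) := by exact_mod_cast h4
    linarith
  calc ((H : ℝ) / 2) ^ k ≤ (((H + 1 - 2 + 1 - k : ℕ) : ℝ)) ^ k :=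
        pow_le_pow_left₀ (by positivity) h3 k
    _ ≤ _ := by rw [mul_comm]; exact h2

/-- the windows at `x` and at `⌊x⌋` have almost the same length -/
lemma windows (k : ℕ) {θ : ℝ} (hθ : 0 < θ) :
    ∀ᶠ x : ℝ in atTop, (⌊Real.log x ^ (k + 1)⌋₊ : ℝ) ≤ (1 + θ) * (HN k ⌊x⌋₊ : ℝ) ∧
      HN k ⌊x⌋₊ ≤ ⌊Real.log x ^ (k + 1)⌋₊ := by
  have h1 : Tendsto (fun u : ℝ => (1 - u⁻¹) ^ (k + 1) - u⁻¹ ^ (k + 1)) atTop (𝓝 1) := by
    have h2 := (((tendsto_const_nhds (x := (1 : ℝ))).sub (tendsto_inv_atTop_zero (𝕜 := ℝ))).pow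
      (k + 1)).sub ((tendsto_inv_atTop_zero (𝕜 := ℝ)).pow (k + 1))
    have e : (1 - 0 : ℝ) ^ (k + 1) - 0 ^ (k + 1) = 1 := by simp
    rw [e] at h2
    exact h2
  have h2 : (1 + θ)⁻¹ < (1 : ℝ) := inv_lt_one_of_one_lt₀ (by linarith)
  filter_upwards [Real.tendsto_log_atTop.eventually (h1.eventually_const_lt h2),
    Real.tendsto_log_atTop.eventually_ge_atTop 2, eventually_ge_atTop 2] with x a1 a2 a3
  have hx0 : 0 < x := by linarith
  have hN : (⌊x⌋₊ : ℝ) ≤ x := Nat.floor_le hx0.le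
  have hN' : x - 1 < (⌊x⌋₊ : ℝ) := Nat.sub_one_lt_floor x
  have hN1 : (1 : ℝ) ≤ (⌊x⌋₊ : ℝ) := by
    have : 1 ≤ ⌊x⌋₊ := Nat.le_floor (by push_cast; linarith)
    exact_mod_cast this
  set L := Real.log x with hL
  have hL0 : 0 < L := by linarith
  have hl : L - 1 ≤ Real.log (⌊x⌋₊ : ℝ) := by
    have h3 : Real.log (x / 2) ≤ Real.log (⌊x⌋₊ : ℝ) :=
      Real.log_le_log (by linarith) (by linarith)
    rw [Real.log_div hx0.ne' (by norm_num)] at h3
    have := Real.log_two_lt_d9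
    linarith
  have hl' : Real.log (⌊x⌋₊ : ℝ) ≤ L := Real.log_le_log (by linarith) hN
  constructor
  · have h3 : L ^ (k + 1) ≤ (1 + θ) * ((L - 1) ^ (k + 1) - 1) := by
      have h4 : (L - 1) ^ (k + 1) - 1 = L ^ (k + 1) * ((1 - L⁻¹) ^ (k + 1) - L⁻¹ ^ (k + 1)) := by
        rw [mul_sub, ← mul_pow, ← mul_pow, mul_sub, mul_inv_cancel₀ hL0.ne', one_pow, mul_one]
      rw [h4]
      have h5 : 1 ≤ (1 + θ) * ((1 - L⁻¹) ^ (k + 1) - L⁻¹ ^ (k + 1)) := by
        have h6 := mul_lt_mul_of_pos_left a1 (by linarith : 0 < 1 + θ)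
        rw [mul_inv_cancel₀ (by linarith)] at h6
        exact h6.le
      calc L ^ (k + 1) = L ^ (k + 1) * 1 := (mul_one _).symm
        _ ≤ L ^ (k + 1) * ((1 + θ) * ((1 - L⁻¹) ^ (k + 1) - L⁻¹ ^ (k + 1))) := by gcongr
        _ = _ := by ring
    have h4 : (L - 1) ^ (k + 1) - 1 ≤ (HN k ⌊x⌋₊ : ℝ) := by
      have h5 : (L - 1) ^ (k + 1) ≤ Real.log (⌊x⌋₊ : ℝ) ^ (k + 1) :=
        pow_le_pow_left₀ (by linarith) hl _
      have h6 : Real.log (⌊x⌋₊ : ℝ) ^ (k + 1) - 1 < (HN k ⌊x⌋₊ : ℝ) := by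
        unfold HN
        exact Nat.sub_one_lt_floor _
      linarith
    have h5 : (⌊L ^ (k + 1)⌋₊ : ℝ) ≤ L ^ (k + 1) := Nat.floor_le (by positivity)
    have h6 : (1 + θ) * ((L - 1) ^ (k + 1) - 1) ≤ (1 + θ) * (HN k ⌊x⌋₊ : ℝ) := by gcongr
    linarith
  · unfold HN
    apply Nat.floor_le_floor
    exact pow_le_pow_left₀ (by linarith) hl' _

set_option maxHeartbeats 4000000 in
/-- **The Hardy-Littlewood formula for almost all sets of shifts** -/
theorem almost_all (k : ℕ) (hk : 1 ≤ k) (h : Upper k 1) (ε : ℝ) (hε : 0 < ε) :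
    ∃ x₀ : ℝ, ∀ x : ℝ, x₀ ≤ x →
      ((exceptional k x ε).card : ℝ) ≤ ε * ((shifts k x).card : ℝ) := by
  classical
  obtain ⟨c, hc, hcT⟩ := Pool.Agent.Y840.PT.CT_ge (k + 1)
  have hfac : (0 : ℝ) < (k.factorial : ℝ) := by exact_mod_cast k.factorial_pos
  obtain ⟨e', he'⟩ : ∃ e' : ℝ, e' = ε / (2 ^ k * k.factorial) := ⟨_, rfl⟩
  have he0 : 0 < e' := by rw [he']; positivity
  obtain ⟨θ, hθ⟩ : ∃ θ : ℝ, θ = e' / 4 := ⟨_, rfl⟩
  have hθ0 : 0 < θ := by rw [hθ]; positivity
  obtain ⟨δ, hδ⟩ : ∃ δ : ℝ, δ = ε / 2 := ⟨_, rfl⟩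
  have hδ0 : 0 < δ := by rw [hδ]; positivity
  obtain ⟨η, hη⟩ : ∃ η : ℝ, η = e' * (δ * c) * θ / 8 := ⟨_, rfl⟩
  have hη0 : 0 < η := by rw [hη]; positivity
  obtain ⟨x₁, hx₁⟩ := h ε hε
  have hbad := badT_card k hk h hη0 hδ0 hc hcT
  have tN : Tendsto (fun x : ℝ => ⌊x⌋₊) atTop atTop := tendsto_nat_floor_atTop
  have tL : Tendsto (fun N : ℕ => Real.log (N : ℝ)) atTop atTop :=
    Real.tendsto_log_atTop.comp tendsto_natCast_atTop_atTop
  have tH : Tendsto (fun N : ℕ => (HN k N : ℝ)) atTop atTop := by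
    apply tendsto_natCast_atTop_atTop.comp
    unfold HN
    apply tendsto_nat_floor_atTop.comp
    exact (tendsto_pow_atTop (by omega)).comp tL
  have hev : ∀ᶠ x : ℝ in atTop,
      ((exceptional k x ε).card : ℝ) ≤ ε * ((shifts k x).card : ℝ) := by
    filter_upwards [eventually_ge_atTop x₁, tN.eventually hbad, windows k hθ0,
      tN.eventually (tH.eventually_ge_atTop (max (2 / θ) (2 * k))),
      tN.eventually ((tendsto_natCast_atTop_atTop (R := ℝ)).eventually_ge_atTop (2 / ε)),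
      tN.eventually (HN_pos k), eventually_ge_atTop 1] with x a1 a2 a3 a4 a5 a6 a7
    obtain ⟨a3, a3'⟩ := a3
    obtain ⟨a6, a6', a6''⟩ := a6
    have hx0 : 0 < x := by linarith
    set N := ⌊x⌋₊ with hN
    set H := HN k N with hH
    set H' := ⌊Real.log x ^ (k + 1)⌋₊ with hH'
    set ℓ := Real.log (N : ℝ) with hℓ
    have hN0 : (0 : ℝ) < N := by exact_mod_cast a6'
    have hH0 : (0 : ℝ) < H := by exact_mod_cast a6''
    have hHθ : 2 / θ ≤ H := (le_max_left _ _).trans a4
    have hHk : (2 * k : ℝ) ≤ H := (le_max_right _ _).trans a4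
    obtain ⟨t, ht⟩ : ∃ t : ℕ, t = ⌊θ * H⌋₊ := ⟨_, rfl⟩
    have hθH : 2 ≤ θ * H := by rwa [div_le_iff₀ hθ0, mul_comm] at hHθ
    have htle : (t : ℝ) ≤ θ * H := by rw [ht]; exact Nat.floor_le (by positivity)
    have htge : θ * H / 2 ≤ t := by
      have h1 : θ * H - 1 < t := by rw [ht]; exact Nat.sub_one_lt_floor _
      linarith
    have ht0 : (0 : ℝ) < t := by linarith
    have hlN : ℓ ≤ Real.log x := Real.log_le_log hN0 (Nat.floor_le hx0.le)
    have hℓ0 : 0 < ℓ := by linarith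
    -- the sets with all elements at most `H - t`
    obtain ⟨𝒟, h𝒟⟩ : ∃ 𝒟, 𝒟 = (exceptional k x ε).filter (fun D => D ⊆ Icc 2 (H - t)) := ⟨_, rfl⟩
    have hxN : x < N + 1 := Nat.lt_floor_add_one x
    have hlow : ∀ D ∈ exceptional k x ε, D.card = k ∧ 0 < Uni.CT (insert 0 D) ∧
        (cnt N (insert 0 D) : ℝ) < (1 - δ) * ((N / ℓ ^ (k + 1)) * Uni.CT (insert 0 D)) := by
      intro D hD
      unfold exceptional at hD
      rw [mem_filter] at hD
      obtain ⟨hD1, hD2, hD3⟩ := hD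
      have hup := hx₁ x a1 D hD1 hD2
      have hDc : D.card = k := by
        unfold shifts at hD1
        exact (mem_powersetCard.1 hD1).2
      rw [sing_eq] at hD2
      have hpos : 0 < Uni.CT (insert 0 D) := lt_of_le_of_ne (Uni.CT_nonneg _) (Ne.symm hD2)
      refine ⟨hDc, hpos, ?_⟩
      have hcnt : (cnt N (insert 0 D) : ℝ) = (tupleCount x (insert 0 D) : ℝ) := rfl
      rw [hcnt]
      have h1 : (tupleCount x (insert 0 D) : ℝ) < (1 - ε) * predicted k x D := by
        by_contra hcon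
        push Not at hcon
        have h2 : |(tupleCount x (insert 0 D) : ℝ) - predicted k x D| ≤ ε * predicted k x D := by
          rw [abs_le]
          constructor <;> linarith
        linarith
      refine h1.trans_le ?_
      have hpred : predicted k x D = Uni.CT (insert 0 D) * (x / Real.log x ^ (k + 1)) := by
        unfold predicted
        rw [sing_eq]
        ring
      have hL0 : 0 < Real.log x := by linarith
      have h1ε : 0 < 1 - ε := by
        by_contra hcon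
        push Not at hcon
        have h2 : (0 : ℝ) ≤ (tupleCount x (insert 0 D) : ℝ) := Nat.cast_nonneg _
        have h3 : 0 ≤ predicted k x D := by rw [hpred]; positivity
        nlinarith
      have h2 : x / Real.log x ^ (k + 1) ≤ ((N : ℝ) + 1) / ℓ ^ (k + 1) := by
        have h3 : ℓ ^ (k + 1) ≤ Real.log x ^ (k + 1) := pow_le_pow_left₀ hℓ0.le hlN _
        gcongr
      have h3 : (1 - ε) * ((N : ℝ) + 1) ≤ (1 - δ) * N := by
        rw [div_le_iff₀ hε] at a5
        rw [hδ]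
        nlinarith
      calc (1 - ε) * predicted k x D =
            (1 - ε) * (Uni.CT (insert 0 D) * (x / Real.log x ^ (k + 1))) := by rw [hpred]
        _ ≤ (1 - ε) * (Uni.CT (insert 0 D) * (((N : ℝ) + 1) / ℓ ^ (k + 1))) := by gcongr
        _ = ((1 - ε) * ((N : ℝ) + 1)) * (Uni.CT (insert 0 D) / ℓ ^ (k + 1)) := by ring
        _ ≤ ((1 - δ) * N) * (Uni.CT (insert 0 D) / ℓ ^ (k + 1)) := by gcongr
        _ = _ := by ring
    by_cases htH : t ≤ H
    swap
    · -- then `θ > 1` and the bound is trivial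
      push Not at htH
      have h1 : (H : ℝ) < t := by exact_mod_cast htH
      have h2 : 1 < θ := by
        by_contra hcon
        push Not at hcon
        nlinarith
      have h3 : (1 : ℝ) ≤ ε := by
        have h4 : e' ≤ ε := by
          rw [he']
          apply div_le_self hε.le
          have h5 : (1 : ℝ) ≤ 2 ^ k := one_le_pow₀ (by norm_num)
          have h6 : (1 : ℝ) ≤ k.factorial := by exact_mod_cast k.factorial_pos
          nlinarith
        linarith
      have h4 : ((exceptional k x ε).card : ℝ) ≤ ((shifts k x).card : ℝ) := by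
        have : (exceptional k x ε).card ≤ (shifts k x).card := by
          unfold exceptional
          exact card_filter_le _ _
        exact_mod_cast this
      have h5 : (0 : ℝ) ≤ ((shifts k x).card : ℝ) := Nat.cast_nonneg _
      nlinarith
    have h1 : 𝒟.card * t ≤ (badT k N δ).card := by
      apply low_card k N t (H - t) 𝒟 (by omega)
      intro D hD
      rw [h𝒟, mem_filter] at hD
      obtain ⟨c1, c2, c3⟩ := hlow D hD.1
      exact ⟨c1, hD.2, c2, c3⟩
    have h2 : ((𝒟.card : ℝ) * t) * (δ * c) ≤ 2 * η * (H : ℝ) ^ (k + 1) := by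
      have h3 : ((𝒟.card : ℝ) * t) ≤ ((badT k N δ).card : ℝ) := by exact_mod_cast h1
      exact (mul_le_mul_of_nonneg_right h3 (by positivity)).trans a2
    have h3 : (𝒟.card : ℝ) ≤ e' / 2 * (H : ℝ) ^ k := by
      have h4 : (𝒟.card : ℝ) * (θ * H / 2) * (δ * c) ≤ 2 * η * (H : ℝ) ^ (k + 1) := by
        refine le_trans ?_ h2
        gcongr
      have h5 : (𝒟.card : ℝ) * (θ * H / 2 * (δ * c)) ≤
          (e' / 2 * (H : ℝ) ^ k) * (θ * H / 2 * (δ * c)) := by
        calc (𝒟.card : ℝ) * (θ * H / 2 * (δ * c)) = (𝒟.card : ℝ) * (θ * H / 2) * (δ * c) := by ring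
          _ ≤ 2 * η * (H : ℝ) ^ (k + 1) := h4
          _ = _ := by rw [hη, pow_succ]; ring
      exact le_of_mul_le_mul_right h5 (by positivity)
    have h4 : (exceptional k x ε).card ≤ 𝒟.card +
        (((Icc 2 H').powersetCard k).filter (fun D => ¬ D ⊆ Icc 2 (H - t))).card := by
      have h5 : exceptional k x ε ⊆ 𝒟 ∪
          ((Icc 2 H').powersetCard k).filter (fun D => ¬ D ⊆ Icc 2 (H - t)) := by
        intro D hD
        rw [mem_union]
        by_cases hsub : D ⊆ Icc 2 (H - t)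
        · left
          rw [h𝒟, mem_filter]
          exact ⟨hD, hsub⟩
        · right
          rw [mem_filter]
          refine ⟨?_, hsub⟩
          unfold exceptional at hD
          rw [mem_filter] at hD
          have := hD.1
          unfold shifts at this
          exact this
      exact (card_le_card h5).trans (card_union_le _ _)
    have h5 := high_card k (H - t) H' hk
    have h6 : ((exceptional k x ε).card : ℝ) ≤ (𝒟.card : ℝ) + ((H' - (H - t) : ℕ) : ℝ) * (H' : ℝ) ^ (k - 1) := by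
      have h7 := h4.trans (Nat.add_le_add_left h5 _)
      exact_mod_cast h7
    have h7 : ((H' - (H - t) : ℕ) : ℝ) ≤ 2 * θ * H' := by
      have h8 : H - t ≤ H' := (Nat.sub_le _ _).trans a3'
      rw [Nat.cast_sub h8, Nat.cast_sub htH]
      have h9 : (H : ℝ) ≤ H' := by exact_mod_cast a3'
      have h10 : θ * H ≤ θ * H' := by gcongr
      linarith
    have h8 : ((exceptional k x ε).card : ℝ) ≤ e' * (H' : ℝ) ^ k := by
      have h9 : (H' : ℝ) ^ k = H' * (H' : ℝ) ^ (k - 1) := by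
        rw [← pow_succ']
        congr 1
        omega
      have h10 : (H : ℝ) ^ k ≤ (H' : ℝ) ^ k := by
        apply pow_le_pow_left₀ hH0.le
        exact_mod_cast a3'
      calc ((exceptional k x ε).card : ℝ) ≤
            (𝒟.card : ℝ) + ((H' - (H - t) : ℕ) : ℝ) * (H' : ℝ) ^ (k - 1) := h6
        _ ≤ e' / 2 * (H' : ℝ) ^ k + (2 * θ * H') * (H' : ℝ) ^ (k - 1) := by
            gcongr
            exact h3.trans (by gcongr)
        _ = e' / 2 * (H' : ℝ) ^ k + (2 * θ) * (H' : ℝ) ^ k := by rw [h9]; ring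
        _ = _ := by rw [hθ]; ring
    refine h8.trans ?_
    have h9 := shifts_card k H' (by
      have : 2 * k ≤ H := by exact_mod_cast hHk
      omega)
    have h10 : e' * (H' : ℝ) ^ k = ε * (((H' : ℝ) / 2) ^ k / k.factorial) := by
      rw [he', div_pow]
      field_simp
    rw [h10]
    have h11 : shifts k x = (Icc 2 H').powersetCard k := rfl
    rw [h11]
    gcongr
  exact eventually_atTop.1 hev

end Pool.Agent.U187.PT
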