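import Pool.Agent.U187.PT.Bnd
import Pool.Agent.TH891.SG.Cnt3
import Pool.Agent.Y840.PT.Shift

set_option autoImplicit false

/-! The Hardy-Littlewood formula for almost all sets of shifts, from the sharp upper bound. -/

namespace Pool.Agent.U187.PT

open Finset Filter Topology Pool.Agent.H387R2 Pool.Agent.TH891.SG

lemma exists_base (T : Finset ℕ) (hne : T.Nonempty) :
    ∃ S : Finset ℕ, ∃ m : ℕ, 0 ∈ S ∧ S.image (· + m) = T ∧ S.card = T.card := by
  classical
  obtain ⟨u₀, hu₀, hmin⟩ := exists_min_image T id hne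
  simp only [id] at hmin
  have hback : (T.image (· - u₀)).image (· + u₀) = T := by
    rw [image_image]
    ext u
    rw [mem_image]
    constructor
    · rintro ⟨v, hv, rfl⟩
      have := hmin v hv
      simp only [Function.comp]
      rwa [Nat.sub_add_cancel this]
    · intro hu
      exact ⟨u, hu, by simp only [Function.comp]; rw [Nat.sub_add_cancel (hmin u hu)]⟩
  refine ⟨T.image (· - u₀), u₀, mem_image.2 ⟨u₀, hu₀, by simp⟩, hback, ?_⟩
  have h1 := card_add (T.image (· - u₀)) u₀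
  rw [hback] at h1
  exact h1.symm

lemma pc_eq (S : Finset ℕ) (N : ℕ) : pc S N = cnt N S := rfl

lemma mem_shifts_of {k : ℕ} {x : ℝ} {S : Finset ℕ} (h0 : 0 ∈ S) (hS : S.card = k + 1)
    (hpos : 0 < Uni.CT S) (hle : ∀ s ∈ S, s ≤ ⌊Real.log x ^ (k + 1)⌋₊) : S.erase 0 ∈ shifts k x := by
  unfold shifts
  rw [mem_powersetCard]
  refine ⟨?_, by rw [card_erase_of_mem h0, hS]; omega⟩
  intro d hd
  rw [mem_erase] at hd
  have h2 : d ≠ 1 := fun e => by
    rw [CT_01 h0 (e ▸ hd.2)] at hpos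
    exact lt_irrefl _ hpos
  rw [mem_Icc]
  exact ⟨by omega, hle d hd.2⟩

lemma piT_le (k N : ℕ) {A : ℝ} (hA : 0 ≤ A)
    (hup : ∀ D ∈ shifts k (N : ℝ), sing (insert 0 D) ≠ 0 →
      (tupleCount (N : ℝ) (insert 0 D) : ℝ) ≤ A * predicted k (N : ℝ) D) :
    ∀ T ∈ (range (HN k N)).powersetCard (k + 1),
      (Uni.piT T N : ℝ) ≤ A * ((N / Real.log N ^ (k + 1)) * Uni.CT T) := by
  classical
  intro T hT
  rw [mem_powersetCard] at hT
  have hne : T.Nonempty := by
    rw [← card_pos, hT.2]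
    omega
  by_cases hAd : Uni.Adm T
  · obtain ⟨S, m, h0, hSm, hc⟩ := exists_base T hne
    have hAS : Uni.Adm S := by rw [← Adm_add S m, hSm]; exact hAd
    have hpos : 0 < Uni.CT S := (CT_pos_iff S).2 hAS
    have hCT : Uni.CT T = Uni.CT S := by rw [← hSm, CT_add]
    have hpi : Uni.piT T N = cnt N S := by rw [← hSm, piT_add h0 m N hAS, pc_eq]
    have hD := mem_shifts_of (k := k) (x := (N : ℝ)) h0 (hc.trans hT.2) hpos (by
      intro s hs
      have h1 : s + m ∈ T := by
        rw [← hSm]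
        exact mem_image.2 ⟨s, hs, rfl⟩
      have h2 := mem_range.1 (hT.1 h1)
      unfold HN at h2
      omega)
    have h2 := hup _ hD (by rw [insert_erase h0, sing_eq]; exact hpos.ne')
    unfold predicted at h2
    rw [insert_erase h0, sing_eq, tupleCount_eq, Nat.floor_natCast] at h2
    rw [hpi, hCT]
    calc (cnt N S : ℝ) ≤ A * (Uni.CT S * N / Real.log N ^ (k + 1)) := h2
      _ = _ := by ring
  · unfold Uni.piT
    rw [if_neg hAd]
    have h1 := Uni.CT_nonneg T
    have h2 : 0 ≤ Real.log (N : ℝ) := Real.log_natCast_nonneg N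
    push_cast
    positivity

lemma HN_pos (k : ℕ) : ∀ᶠ N : ℕ in atTop, 2 ≤ Real.log (N : ℝ) ∧ 1 ≤ N ∧ 1 ≤ HN k N := by
  have tL : Tendsto (fun N : ℕ => Real.log (N : ℝ)) atTop atTop :=
    Real.tendsto_log_atTop.comp tendsto_natCast_atTop_atTop
  filter_upwards [tL.eventually_ge_atTop 2, eventually_ge_atTop 1] with N h1 h2
  refine ⟨h1, h2, ?_⟩
  unfold HN
  apply Nat.le_floor
  push_cast
  exact one_le_pow₀ (by linarith)

/-- the constant `1` is the best possible one -/
theorem one_le (k : ℕ) (hk : 1 ≤ k) (B : ℝ) (h : Upper k B) : 1 ≤ B := by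
  classical
  by_contra hB
  push Not at hB
  obtain ⟨x₀, hx₀⟩ := h ((1 - B) / 2) (by linarith)
  set A : ℝ := max (B + (1 - B) / 2) 0 with hA
  have hA1 : A < 1 := by
    rw [hA, max_lt_iff]
    exact ⟨by linarith, one_pos⟩
  have hev : ∀ᶠ N : ℕ in atTop, False := by
    filter_upwards [many k hk, avg_up k hk, HN_pos k,
      tendsto_natCast_atTop_atTop.eventually_ge_atTop x₀] with N h1 h2 h3 h4
    obtain ⟨h3, h5, h6⟩ := h3
    have hup : ∀ D ∈ shifts k (N : ℝ), sing (insert 0 D) ≠ 0 →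
        (tupleCount (N : ℝ) (insert 0 D) : ℝ) ≤ A * predicted k (N : ℝ) D := by
      intro D hD hs
      refine (hx₀ N h4 D hD hs).trans ?_
      apply mul_le_mul_of_nonneg_right (le_max_left _ _)
      unfold predicted
      rw [sing_eq]
      have := Uni.CT_nonneg (insert 0 D)
      positivity
    have h7 := sum_le_sum (piT_le k N (le_max_right _ _) hup)
    rw [← mul_sum, ← mul_sum] at h7
    set Q : ℝ := (N : ℝ) / Real.log N ^ (k + 1) with hQ
    have hℓ0 : 0 < Real.log (N : ℝ) := by linarith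
    have hN0 : (0 : ℝ) < N := by exact_mod_cast h5
    have hQ0 : 0 < Q := by positivity
    have hH0 : (0 : ℝ) < HN k N := by exact_mod_cast h6
    have hfac : (0 : ℝ) < ((k + 1).factorial : ℝ) := by exact_mod_cast (k + 1).factorial_pos
    set V : ℝ := (HN k N : ℝ) ^ (k + 1) / (k + 1).factorial with hV
    have hV0 : 0 < V := by positivity
    have h8 : Q * V * (1 + 1 / (2 * Real.log N)) ≤ A * (Q * (V * (1 + 1 / (8 * Real.log N)))) := by
      refine h1.trans (h7.trans ?_)
      gcongr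
    have h9 : A * (Q * (V * (1 + 1 / (8 * Real.log N)))) ≤
        1 * (Q * (V * (1 + 1 / (8 * Real.log N)))) :=
      mul_le_mul_of_nonneg_right hA1.le (by positivity)
    have h10 : Q * V * (1 + 1 / (2 * Real.log N)) ≤ Q * V * (1 + 1 / (8 * Real.log N)) := by
      linarith
    have h11 := le_of_mul_le_mul_left h10 (by positivity)
    have h12 : 1 / (8 * Real.log (N : ℝ)) < 1 / (2 * Real.log N) :=
      one_div_lt_one_div_of_lt (by positivity) (by linarith)
    linarith
  obtain ⟨N, hN⟩ := hev.exists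
  exact hN

open Classical in
/-- the patterns with fewer occurrences than predicted -/
noncomputable def badT (k N : ℕ) (δ : ℝ) : Finset (Finset ℕ) :=
  ((range (HN k N)).powersetCard (k + 1)).filter (fun T => 0 < Uni.CT T ∧
    (Uni.piT T N : ℝ) < (1 - δ) * ((N / Real.log N ^ (k + 1)) * Uni.CT T))

/-- few patterns have fewer occurrences than predicted -/
theorem badT_card (k : ℕ) (hk : 1 ≤ k) (h : Upper k 1) {η δ c : ℝ} (hη : 0 < η) (hδ : 0 < δ)
    (hc : 0 < c) (hcT : ∀ T : Finset ℕ, T.card = k + 1 → 0 < Uni.CT T → c ≤ Uni.CT T) :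
    ∀ᶠ N : ℕ in atTop, ((badT k N δ).card : ℝ) * (δ * c) ≤ 2 * η * (HN k N : ℝ) ^ (k + 1) := by
  classical
  obtain ⟨x₀, hx₀⟩ := h η hη
  have tL : Tendsto (fun N : ℕ => Real.log (N : ℝ)) atTop atTop :=
    Real.tendsto_log_atTop.comp tendsto_natCast_atTop_atTop
  filter_upwards [many k hk, avg_up k hk, HN_pos k,
    tendsto_natCast_atTop_atTop.eventually_ge_atTop x₀,
    tL.eventually_ge_atTop ((1 + η) / (8 * η))] with N h1 h2 h3 h4 h4'
  obtain ⟨h3, h5, h6⟩ := h3
  have h7 := piT_le k N (by linarith : (0 : ℝ) ≤ 1 + η) (hx₀ N h4)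
  set Q : ℝ := (N : ℝ) / Real.log N ^ (k + 1) with hQ
  have hℓ0 : 0 < Real.log (N : ℝ) := by linarith
  have hN0 : (0 : ℝ) < N := by exact_mod_cast h5
  have hQ0 : 0 < Q := by positivity
  have hH0 : (0 : ℝ) < HN k N := by exact_mod_cast h6
  have hfac : (1 : ℝ) ≤ ((k + 1).factorial : ℝ) := by exact_mod_cast (k + 1).factorial_pos
  set V : ℝ := (HN k N : ℝ) ^ (k + 1) / (k + 1).factorial with hV
  have hV0 : 0 < V := by positivity
  have hVle : V ≤ (HN k N : ℝ) ^ (k + 1) := div_le_self (by positivity) hfac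
  have h8 : ∑ T ∈ badT k N δ, ((1 + η) * (Q * Uni.CT T) - (Uni.piT T N : ℝ)) ≤
      ∑ T ∈ (range (HN k N)).powersetCard (k + 1),
        ((1 + η) * (Q * Uni.CT T) - (Uni.piT T N : ℝ)) := by
    apply sum_le_sum_of_subset_of_nonneg
    · unfold badT
      exact filter_subset _ _
    · intro T hT _
      have := h7 T hT
      linarith
  have h9 : ((badT k N δ).card : ℝ) * (δ * c * Q) ≤
      ∑ T ∈ badT k N δ, ((1 + η) * (Q * Uni.CT T) - (Uni.piT T N : ℝ)) := by
    rw [← nsmul_eq_mul]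
    apply card_nsmul_le_sum
    intro T hT
    unfold badT at hT
    rw [mem_filter, mem_powersetCard] at hT
    obtain ⟨⟨_, hTc⟩, hpos, hlt⟩ := hT
    have h10 := hcT T hTc hpos
    have h11 : δ * c * Q ≤ δ * (Q * Uni.CT T) := by
      calc δ * c * Q = δ * (Q * c) := by ring
        _ ≤ _ := by gcongr
    have h12 : 0 ≤ η * (Q * Uni.CT T) := by positivity
    nlinarith
  have h10 : ∑ T ∈ (range (HN k N)).powersetCard (k + 1),
        ((1 + η) * (Q * Uni.CT T) - (Uni.piT T N : ℝ)) ≤ Q * (2 * η * V) := by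
    rw [sum_sub_distrib, ← mul_sum, ← mul_sum]
    have h11 : (1 + η) * (Q * ∑ T ∈ (range (HN k N)).powersetCard (k + 1), Uni.CT T) ≤
        (1 + η) * (Q * (V * (1 + 1 / (8 * Real.log N)))) := by gcongr
    have h12 : Q * V * 1 ≤ Q * V * (1 + 1 / (2 * Real.log N)) := by
      apply mul_le_mul_of_nonneg_left _ (by positivity)
      have : 0 ≤ 1 / (2 * Real.log (N : ℝ)) := by positivity
      linarith
    have h13 : (1 + η) * (1 / (8 * Real.log N)) ≤ η := by
      rw [mul_one_div, div_le_iff₀ (by positivity)]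
      rw [div_le_iff₀ (by positivity)] at h4'
      linarith
    have h14 : (1 + η) * (Q * (V * (1 + 1 / (8 * Real.log N)))) =
        Q * V * ((1 + η) + (1 + η) * (1 / (8 * Real.log N))) := by ring
    have h15 : Q * V * ((1 + η) + (1 + η) * (1 / (8 * Real.log N))) ≤ Q * V * ((1 + η) + η) := by
      gcongr
    nlinarith
  have h11 : ((badT k N δ).card : ℝ) * (δ * c) * Q ≤ (2 * η * V) * Q := by
    calc ((badT k N δ).card : ℝ) * (δ * c) * Q = ((badT k N δ).card : ℝ) * (δ * c * Q) := by ring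
      _ ≤ Q * (2 * η * V) := h9.trans (h8.trans h10)
      _ = _ := by ring
  have h12 := le_of_mul_le_mul_right h11 hQ0
  refine h12.trans ?_
  gcongr

end Pool.Agent.U187.PT
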