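import Pool.Agent.U187.PT.Cnt

set_option autoImplicit false

/-! Double counting of separated tuples of translates. -/

namespace Pool.Agent.U187.PT

open Finset

/-- the number of `1 ≤ ν ≤ N` such that all `ν + t`, `t ∈ T`, are prime -/
def cnt (N : ℕ) (T : Finset ℕ) : ℕ := ((Icc 1 N).filter (fun ν => ∀ t ∈ T, (ν + t).Prime)).card

/-- the positions `h < R` of the translates of `ν + T` which consist of primes -/
def pos (R : ℕ) (T : Finset ℕ) (ν : ℕ) : Finset ℕ :=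
  (range R).filter (fun h => ∀ t ∈ T, (ν + (t + h)).Prime)

lemma sepT_pos (m R : ℕ) (T : Finset ℕ) (ν : ℕ) :
    sepT m T (pos R T ν) = (sepT m T (range R)).filter (fun h => ∀ u ∈ un T h, (ν + u).Prime) := by
  classical
  ext h
  unfold sepT pos
  rw [mem_filter, mem_filter, mem_filter, Fintype.mem_piFinset, Fintype.mem_piFinset]
  constructor
  · rintro ⟨h1, h2⟩
    refine ⟨⟨fun i => (mem_filter.1 (h1 i)).1, h2⟩, fun u hu => ?_⟩
    obtain ⟨i, t, ht, rfl⟩ := mem_un.1 hu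
    exact (mem_filter.1 (h1 i)).2 t ht
  · rintro ⟨⟨h1, h2⟩, h3⟩
    exact ⟨fun i => mem_filter.2 ⟨h1 i, fun t ht => h3 _ (mem_un.2 ⟨i, t, ht, rfl⟩)⟩, h2⟩

lemma dbl (m N R : ℕ) (T : Finset ℕ) :
    ∑ ν ∈ Icc 1 N, (sepT m T (pos R T ν)).card = ∑ h ∈ sepT m T (range R), cnt N (un T h) := by
  classical
  simp_rw [sepT_pos, cnt, card_filter]
  rw [sum_comm]

lemma mean_low (N R : ℕ) (T : Finset ℕ) :
    (R : ℝ) * ((cnt N T : ℝ) - R) ≤ ∑ ν ∈ Icc 1 N, ((pos R T ν).card : ℝ) := by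
  classical
  have h1 : ∑ ν ∈ Icc 1 N, (pos R T ν).card =
      ∑ h ∈ range R, ((Icc 1 N).filter (fun ν => ∀ t ∈ T, (ν + (t + h)).Prime)).card := by
    simp_rw [pos, card_filter]
    rw [sum_comm]
  have h2 : ∀ h ∈ range R, (cnt N T : ℝ) - R ≤
      (((Icc 1 N).filter (fun ν => ∀ t ∈ T, (ν + (t + h)).Prime)).card : ℝ) := by
    intro h hh
    rw [mem_range] at hh
    have h3 : cnt N T ≤ h + ((Icc 1 N).filter (fun ν => ∀ t ∈ T, (ν + (t + h)).Prime)).card := by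
      have h4 : (Icc 1 N).filter (fun ν => ∀ t ∈ T, (ν + t).Prime) ⊆ Icc 1 h ∪
          ((Icc 1 N).filter (fun ν => ∀ t ∈ T, (ν + (t + h)).Prime)).image (· + h) := by
        intro ν hν
        rw [mem_filter, mem_Icc] at hν
        rw [mem_union, mem_Icc, mem_image]
        rcases Nat.lt_or_ge h ν with hlt | hge
        · right
          refine ⟨ν - h, mem_filter.2 ⟨mem_Icc.2 ⟨by omega, by omega⟩, fun t ht => ?_⟩, by omega⟩
          have : ν - h + (t + h) = ν + t := by omega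
          rw [this]
          exact hν.2 t ht
        · left
          exact ⟨hν.1.1, hge⟩
      refine (card_le_card h4).trans ((card_union_le _ _).trans (Nat.add_le_add ?_ card_image_le))
      rw [Nat.card_Icc]
      omega
    have h5 : (cnt N T : ℝ) ≤ h + (((Icc 1 N).filter (fun ν => ∀ t ∈ T, (ν + (t + h)).Prime)).card : ℝ) := by
      exact_mod_cast h3
    have h6 : (h : ℝ) ≤ R := by exact_mod_cast hh.le
    linarith
  have h3 : ((∑ ν ∈ Icc 1 N, (pos R T ν).card : ℕ) : ℝ) = ∑ ν ∈ Icc 1 N, ((pos R T ν).card : ℝ) := by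
    push_cast; rfl
  rw [← h3, h1]
  push_cast
  calc (R : ℝ) * ((cnt N T : ℝ) - R) = ∑ _h ∈ range R, ((cnt N T : ℝ) - R) := by
        rw [sum_const, card_range, nsmul_eq_mul]
    _ ≤ _ := sum_le_sum h2

/-- the power trick: many prime patterns `T` give many prime patterns which are unions of `m`
disjoint translates of `T` -/
theorem jensen (m : ℕ) (hm : 1 ≤ m) (N R : ℕ) (hN : 1 ≤ N) (T : Finset ℕ) {μ : ℝ} (hμ : 0 ≤ μ)
    (h : (μ + (m : ℝ) ^ 2 * (T.card : ℝ) ^ 2) * N ≤ (R : ℝ) * ((cnt N T : ℝ) - R)) :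
    (N : ℝ) * μ ^ m ≤ ∑ h ∈ sepT m T (range R), (cnt N (un T h) : ℝ) := by
  classical
  set c : ℝ := (m : ℝ) ^ 2 * (T.card : ℝ) ^ 2 with hc
  have hN0 : (0 : ℝ) < N := by exact_mod_cast hN
  set f : ℕ → ℝ := fun ν => max (((pos R T ν).card : ℝ) - c) 0 with hf
  have h1 : ∑ ν ∈ Icc 1 N, f ν ^ m ≤ ∑ h ∈ sepT m T (range R), (cnt N (un T h) : ℝ) := by
    have h2 : ∑ ν ∈ Icc 1 N, f ν ^ m ≤ ∑ ν ∈ Icc 1 N, ((sepT m T (pos R T ν)).card : ℝ) :=
      sum_le_sum fun ν _ => sep_card m hm T _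
    refine h2.trans (le_of_eq ?_)
    exact_mod_cast dbl m N R T
  refine le_trans ?_ h1
  obtain ⟨r, rfl⟩ : ∃ r, m = r + 1 := ⟨m - 1, by omega⟩
  have h3 := pow_sum_div_card_le_sum_pow (s := Icc 1 N) (f := f) (fun _ _ => le_max_right _ _) r
  refine le_trans ?_ h3
  have hcard : ((Icc 1 N).card : ℝ) = N := by rw [Nat.card_Icc]; simp
  rw [hcard]
  have h4 : μ * N ≤ ∑ ν ∈ Icc 1 N, f ν := by
    have h5 : ∑ ν ∈ Icc 1 N, (((pos R T ν).card : ℝ) - c) ≤ ∑ ν ∈ Icc 1 N, f ν :=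
      sum_le_sum fun ν _ => le_max_left _ _
    rw [sum_sub_distrib, sum_const, nsmul_eq_mul, hcard] at h5
    have h6 := mean_low N R T
    nlinarith
  calc (N : ℝ) * μ ^ (r + 1) = (μ * N) ^ (r + 1) / (N : ℝ) ^ r := by
        rw [mul_pow, eq_div_iff (by positivity)]
        ring
    _ ≤ _ := by
        gcongr

end Pool.Agent.U187.PT
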