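import Pool.Agent.U187.PT.Defs
import Pool.Agent.U187.PT.Dbl
import Pool.Agent.TH891.SG.Cnt3

set_option autoImplicit false

/-! The upper bound, applied to sets which need not contain `0`. -/

namespace Pool.Agent.U187.PT

open Finset Pool.Agent.H387R2 Pool.Agent.TH891.SG

lemma sing_eq (S : Finset ℕ) : sing S = Uni.CT S := rfl

lemma tupleCount_eq (x : ℝ) (S : Finset ℕ) : tupleCount x S = cnt ⌊x⌋₊ S := rfl

lemma nuT_le_card' (S : Finset ℕ) (p : ℕ) : Uni.nuT S p ≤ S.card := card_image_le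

/-- there are few prime patterns `ν + U` if `U` is not admissible -/
lemma cnt_nonadm (N : ℕ) (U : Finset ℕ) (h : ¬ Uni.Adm U) : cnt N U ≤ U.card := by
  classical
  unfold Uni.Adm at h
  push Not at h
  obtain ⟨q, hq, hqU⟩ := h
  have hall : ∀ r < q, ∃ u ∈ U, u % q = r := by
    intro r hr
    have h1 : U.image (· % q) = range q := by
      apply eq_of_subset_of_card_le
      · intro s hs
        obtain ⟨u, _, rfl⟩ := mem_image.1 hs
        exact mem_range.2 (Nat.mod_lt _ hq.pos)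
      · rw [card_range]
        exact hqU
    have h2 : r ∈ U.image (· % q) := by rw [h1]; exact mem_range.2 hr
    obtain ⟨u, hu, e⟩ := mem_image.1 h2
    exact ⟨u, hu, e⟩
  have h3 : (Icc 1 N).filter (fun ν => ∀ t ∈ U, (ν + t).Prime) ⊆ Icc 1 q := by
    intro ν hν
    rw [mem_filter, mem_Icc] at hν
    rw [mem_Icc]
    refine ⟨hν.1.1, ?_⟩
    obtain ⟨u, hu, e⟩ := hall ((q - ν % q) % q) (Nat.mod_lt _ hq.pos)
    have h4 : q ∣ ν + u := by
      apply Nat.dvd_of_mod_eq_zero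
      rw [Nat.add_mod, e]
      rw [Nat.add_mod_mod, ← Nat.add_mod_mod]
      have h5 : ν % q < q := Nat.mod_lt _ hq.pos
      rw [Nat.add_mod_mod, Nat.add_sub_cancel' h5.le, Nat.mod_self]
    have h6 := (Nat.prime_dvd_prime_iff_eq hq (hν.2 u hu)).1 h4
    omega
  unfold cnt
  refine (card_le_card h3).trans ?_
  rw [Nat.card_Icc, Nat.add_sub_cancel]
  exact hqU.trans (nuT_le_card' U q)

/-- the bound for all sets `U` -/
theorem cnt_le (k : ℕ) {x B : ℝ} (hx : 0 ≤ x) (hL : 0 ≤ Real.log x) (hB : 0 ≤ B)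
    (hup : ∀ D ∈ shifts k x, sing (insert 0 D) ≠ 0 →
      (tupleCount x (insert 0 D) : ℝ) ≤ B * predicted k x D)
    (U : Finset ℕ) (hU : U.card = k + 1) (M : ℕ) (hM : ∀ u ∈ U, u ≤ M)
    (hML : M ≤ ⌊Real.log x ^ (k + 1)⌋₊) :
    (cnt ⌊x⌋₊ U : ℝ) ≤ B * (Uni.CT U * x / Real.log x ^ (k + 1)) + (M + (k + 1)) := by
  classical
  have hCT0 : 0 ≤ Uni.CT U := Uni.CT_nonneg U
  have hmain0 : 0 ≤ B * (Uni.CT U * x / Real.log x ^ (k + 1)) := by positivity
  by_cases hA : Uni.Adm U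
  swap
  · have h1 : (cnt ⌊x⌋₊ U : ℝ) ≤ (k + 1 : ℕ) := by
      rw [← hU]
      exact_mod_cast cnt_nonadm ⌊x⌋₊ U hA
    push_cast at h1
    have h2 : (0 : ℝ) ≤ M := Nat.cast_nonneg _
    linarith
  -- translate to a set which contains `0`
  have hne : U.Nonempty := by
    rw [← card_pos, hU]
    omega
  obtain ⟨u₀, hu₀, hmin⟩ := exists_min_image U id hne
  simp only [id] at hmin
  obtain ⟨U', hU'⟩ : ∃ U' : Finset ℕ, U' = U.image (· - u₀) := ⟨_, rfl⟩
  have hback : U'.image (· + u₀) = U := by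
    rw [hU', image_image]
    ext u
    rw [mem_image]
    constructor
    · rintro ⟨v, hv, rfl⟩
      have := hmin v hv
      simp only [Function.comp]
      rwa [Nat.sub_add_cancel this]
    · intro hu
      exact ⟨u, hu, by simp only [Function.comp]; rw [Nat.sub_add_cancel (hmin u hu)]⟩
  have hcard : U'.card = k + 1 := by
    have h1 := card_add U' u₀
    rw [hback, hU] at h1
    omega
  have h0 : 0 ∈ U' := by
    rw [hU', mem_image]
    exact ⟨u₀, hu₀, by simp⟩
  have hCT : Uni.CT U' = Uni.CT U := by rw [← hback, CT_add]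
  have hpos : 0 < Uni.CT U' := by rw [hCT]; exact (CT_pos_iff U).2 hA
  have h1 : 1 ∉ U' := fun h => by
    rw [CT_01 h0 h] at hpos
    exact lt_irrefl _ hpos
  have hins : insert 0 (U'.erase 0) = U' := insert_erase h0
  have hD : U'.erase 0 ∈ shifts k x := by
    unfold shifts
    rw [mem_powersetCard]
    refine ⟨?_, by rw [card_erase_of_mem h0, hcard]; omega⟩
    intro d hd
    rw [mem_erase] at hd
    have h2 : d ≠ 1 := fun e => h1 (e ▸ hd.2)
    rw [mem_Icc]
    refine ⟨by omega, ?_⟩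
    have h3 := hd.2
    rw [hU', mem_image] at h3
    obtain ⟨u, hu, rfl⟩ := h3
    have := hM u hu
    omega
  have h2 := hup _ hD (by rw [hins, sing_eq]; exact hpos.ne')
  unfold predicted at h2
  rw [hins, sing_eq, hCT, tupleCount_eq] at h2
  have h3 : cnt ⌊x⌋₊ U ≤ cnt ⌊x⌋₊ U' + u₀ := by
    have h4 : (Icc 1 ⌊x⌋₊).filter (fun ν => ∀ t ∈ U, (ν + t).Prime) ⊆
        ((Icc 1 ⌊x⌋₊).filter (fun ν => ∀ t ∈ U', (ν + t).Prime)).image (· - u₀) ∪
          (Icc (⌊x⌋₊ + 1 - u₀) ⌊x⌋₊) := by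
      intro ν hν
      rw [mem_filter, mem_Icc] at hν
      rw [mem_union, mem_image, mem_Icc]
      by_cases hle : ν + u₀ ≤ ⌊x⌋₊
      · left
        refine ⟨ν + u₀, mem_filter.2 ⟨mem_Icc.2 ⟨by omega, hle⟩, fun t ht => ?_⟩, by omega⟩
        have h5 : t + u₀ ∈ U := by
          rw [← hback]
          exact mem_image.2 ⟨t, ht, rfl⟩
        have := hν.2 _ h5
        rwa [show ν + u₀ + t = ν + (t + u₀) by ring]
      · right
        omega
    unfold cnt
    refine (card_le_card h4).trans ((card_union_le _ _).trans (Nat.add_le_add card_image_le ?_))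
    rw [Nat.card_Icc]
    omega
  have h4 : (cnt ⌊x⌋₊ U : ℝ) ≤ cnt ⌊x⌋₊ U' + u₀ := by exact_mod_cast h3
  have h5 : (u₀ : ℝ) ≤ M := by exact_mod_cast hM u₀ hu₀
  have h6 : (0 : ℝ) ≤ k := Nat.cast_nonneg _
  linarith

end Pool.Agent.U187.PT
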