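import Mathlib

set_option autoImplicit false

/-! Separated tuples of translates. -/

namespace Pool.Agent.U187.PT

open Finset

/-- the translate `T + h` -/
def tr (T : Finset ℕ) (h : ℕ) : Finset ℕ := T.image (· + h)

/-- the union of the translates `T + h i` -/
def un {m : ℕ} (T : Finset ℕ) (h : Fin m → ℕ) : Finset ℕ := univ.biUnion (fun i => tr T (h i))

/-- the translates `T + h i` are pairwise disjoint -/
def Sep {m : ℕ} (T : Finset ℕ) (h : Fin m → ℕ) : Prop :=
  ∀ i j, i ≠ j → Disjoint (tr T (h i)) (tr T (h j))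

lemma card_tr (T : Finset ℕ) (h : ℕ) : (tr T h).card = T.card :=
  card_image_of_injective _ (add_left_injective h)

lemma mem_tr {T : Finset ℕ} {h u : ℕ} : u ∈ tr T h ↔ ∃ t ∈ T, t + h = u := by
  unfold tr
  rw [mem_image]

lemma mem_un {m : ℕ} {T : Finset ℕ} {h : Fin m → ℕ} {u : ℕ} :
    u ∈ un T h ↔ ∃ i, ∃ t ∈ T, t + h i = u := by
  unfold un
  simp only [mem_biUnion, mem_univ, true_and, mem_tr]

lemma card_un {m : ℕ} {T : Finset ℕ} {h : Fin m → ℕ} (hs : Sep T h) :
    (un T h).card = m * T.card := by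
  unfold un
  rw [card_biUnion (fun i _ j _ hij => hs i j hij)]
  simp [card_tr]

open Classical in
lemma nonsep_card {m : ℕ} (T G : Finset ℕ) (i j : Fin m) (hij : i ≠ j) :
    ((Fintype.piFinset (fun _ : Fin m => G)).filter
      (fun h => ¬ Disjoint (tr T (h i)) (tr T (h j)))).card ≤ T.card ^ 2 * G.card ^ (m - 1) := by
  have hc : (Fintype.piFinset (fun _ : {l : Fin m // l ≠ j} => G)).card = G.card ^ (m - 1) := by
    rw [Fintype.card_piFinset, prod_const, card_univ, Fintype.card_subtype_compl,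
      Fintype.card_fin, Fintype.card_subtype_eq]
  rw [← hc]
  refine card_le_mul_card_image_of_maps_to
    (f := fun (h : Fin m → ℕ) => fun (l : {l : Fin m // l ≠ j}) => h l) ?_ _ ?_
  · intro h hh
    rw [mem_filter, Fintype.mem_piFinset] at hh
    rw [Fintype.mem_piFinset]
    exact fun l => hh.1 l
  · intro b _
    have hle : (((T ×ˢ T).image (fun p : ℕ × ℕ => b ⟨i, hij⟩ + p.1 - p.2))).card ≤ T.card ^ 2 := by
      refine card_image_le.trans ?_
      rw [card_product, sq]
    refine le_trans (card_le_card_of_injOn (fun h => h j) ?_ ?_) hle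
    · intro h hh
      rw [mem_coe, mem_filter, mem_filter] at hh
      obtain ⟨⟨_, h2⟩, h3⟩ := hh
      rw [not_disjoint_iff] at h2
      obtain ⟨u, hu1, hu2⟩ := h2
      obtain ⟨t, ht, e1⟩ := mem_tr.1 hu1
      obtain ⟨t', ht', e2⟩ := mem_tr.1 hu2
      rw [mem_coe, mem_image]
      refine ⟨(t, t'), mem_product.2 ⟨ht, ht'⟩, ?_⟩
      have h4 : b ⟨i, hij⟩ = h i := by rw [← h3]
      simp only
      rw [h4]
      omega
    · intro h hh h' hh' e
      rw [mem_coe, mem_filter] at hh hh'
      funext l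
      by_cases hl : l = j
      · rw [hl]; exact e
      · have e1 := congrFun hh.2 ⟨l, hl⟩
        have e2 := congrFun hh'.2 ⟨l, hl⟩
        simp only at e1 e2
        rw [e1, e2]

open Classical in
/-- the number of separated tuples in `G` -/
noncomputable def sepT (m : ℕ) (T G : Finset ℕ) : Finset (Fin m → ℕ) :=
  (Fintype.piFinset (fun _ : Fin m => G)).filter (fun h => Sep T h)

lemma sep_card (m : ℕ) (hm : 1 ≤ m) (T G : Finset ℕ) :
    (max ((G.card : ℝ) - (m : ℝ) ^ 2 * (T.card : ℝ) ^ 2) 0) ^ m ≤ ((sepT m T G).card : ℝ) := by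
  classical
  set c : ℝ := (m : ℝ) ^ 2 * (T.card : ℝ) ^ 2 with hc
  have hc0 : 0 ≤ c := by positivity
  have h1 : (Fintype.piFinset (fun _ : Fin m => G)).card ≤ (sepT m T G).card +
      ∑ q ∈ (univ : Finset (Fin m × Fin m)).filter (fun q => q.1 ≠ q.2),
        ((Fintype.piFinset (fun _ : Fin m => G)).filter
          (fun h => ¬ Disjoint (tr T (h q.1)) (tr T (h q.2)))).card := by
    have h2 : Fintype.piFinset (fun _ : Fin m => G) ⊆ sepT m T G ∪
        ((univ : Finset (Fin m × Fin m)).filter (fun q => q.1 ≠ q.2)).biUnion (fun q =>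
          (Fintype.piFinset (fun _ : Fin m => G)).filter
          (fun h => ¬ Disjoint (tr T (h q.1)) (tr T (h q.2)))) := by
      intro h hh
      rw [mem_union]
      by_cases hs : Sep T h
      · left
        unfold sepT
        exact mem_filter.2 ⟨hh, hs⟩
      · right
        unfold Sep at hs
        push Not at hs
        obtain ⟨i, j, hij, hd⟩ := hs
        rw [mem_biUnion]
        exact ⟨(i, j), mem_filter.2 ⟨mem_univ _, hij⟩, mem_filter.2 ⟨hh, hd⟩⟩
    refine (card_le_card h2).trans ((card_union_le _ _).trans ?_)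
    gcongr
    exact card_biUnion_le
  have h3 : ∑ q ∈ (univ : Finset (Fin m × Fin m)).filter (fun q => q.1 ≠ q.2),
        ((Fintype.piFinset (fun _ : Fin m => G)).filter
          (fun h => ¬ Disjoint (tr T (h q.1)) (tr T (h q.2)))).card ≤
        m ^ 2 * (T.card ^ 2 * G.card ^ (m - 1)) := by
    calc _ ≤ ∑ q ∈ (univ : Finset (Fin m × Fin m)).filter (fun q => q.1 ≠ q.2),
          (T.card ^ 2 * G.card ^ (m - 1)) :=
          sum_le_sum fun q hq => nonsep_card T G q.1 q.2 (mem_filter.1 hq).2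
      _ = ((univ : Finset (Fin m × Fin m)).filter (fun q => q.1 ≠ q.2)).card *
          (T.card ^ 2 * G.card ^ (m - 1)) := by rw [sum_const, smul_eq_mul]
      _ ≤ _ := by
          gcongr
          refine (card_filter_le _ _).trans ?_
          rw [card_univ, Fintype.card_prod, Fintype.card_fin, sq]
  have h4 : (Fintype.piFinset (fun _ : Fin m => G)).card = G.card ^ m := by
    rw [Fintype.card_piFinset, prod_const, card_univ, Fintype.card_fin]
  rw [h4] at h1
  have h5 : (G.card : ℝ) ^ m ≤ (sepT m T G).card + (m : ℝ) ^ 2 * ((T.card : ℝ) ^ 2 *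
      (G.card : ℝ) ^ (m - 1)) := by
    exact_mod_cast h1.trans (by gcongr)
  obtain ⟨r, rfl⟩ : ∃ r, m = r + 1 := ⟨m - 1, by omega⟩
  rw [Nat.add_sub_cancel] at h5
  rcases le_or_gt ((G.card : ℝ)) c with hle | hgt
  · rw [max_eq_right (by linarith), zero_pow (by omega)]
    positivity
  · rw [max_eq_left (by linarith)]
    have h6 : ((G.card : ℝ) - c) ^ r ≤ (G.card : ℝ) ^ r :=
      pow_le_pow_left₀ (by linarith) (by linarith) r
    have h7 : ((G.card : ℝ) - c) ^ (r + 1) ≤ (G.card : ℝ) ^ r * ((G.card : ℝ) - c) := by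
      rw [pow_succ]
      exact mul_le_mul_of_nonneg_right h6 (by linarith)
    have h8 : (G.card : ℝ) ^ r * ((G.card : ℝ) - c) = (G.card : ℝ) ^ (r + 1) -
        ((r + 1 : ℕ) : ℝ) ^ 2 * ((T.card : ℝ) ^ 2 * (G.card : ℝ) ^ r) := by
      rw [hc, pow_succ]
      ring
    linarith

end Pool.Agent.U187.PT
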