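import Mathlib

set_option autoImplicit false

/-! Prime tuples with short shifts: the constants in the uniform upper bound. -/

namespace Pool.Agent.U187.PT

open Finset

/-- The number of residue classes modulo `p` which meet `S`. -/
def nu (S : Finset ℕ) (p : ℕ) : ℕ := (S.image (· % p)).card

/-- The singular series `∏_p (1 - ν_S(p) / p) (1 - 1 / p)^(-|S|)`. -/
noncomputable def sing (S : Finset ℕ) : ℝ :=
  ∏' p : Nat.Primes, (1 - (nu S p : ℝ) / ((p : ℕ) : ℝ)) / (1 - 1 / ((p : ℕ) : ℝ)) ^ S.card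

/-- The number of integers `1 ≤ m ≤ x` such that all `m + d`, `d ∈ S`, are prime. -/
noncomputable def tupleCount (x : ℝ) (S : Finset ℕ) : ℕ :=
  ((Icc 1 ⌊x⌋₊).filter (fun m => ∀ d ∈ S, (m + d).Prime)).card

/-- The `k`-element sets of integers in `[2, (log x)^(k+1)]`. -/
noncomputable def shifts (k : ℕ) (x : ℝ) : Finset (Finset ℕ) :=
  (Icc 2 ⌊Real.log x ^ (k + 1)⌋₊).powersetCard k

/-- The Hardy-Littlewood prediction for `{0} ∪ D`, where `D` has `k` elements. -/
noncomputable def predicted (k : ℕ) (x : ℝ) (D : Finset ℕ) : ℝ :=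
  sing (insert 0 D) * x / Real.log x ^ (k + 1)

/-- `B` is an admissible constant in the uniform upper bound for `k` shifts: for every `ε > 0` and
all large `x`, `π_{k+1}(x, {0} ∪ D) ≤ (B + ε) 𝔖({0} ∪ D) x / (log x)^(k+1)` for ALL `k`-element sets
`D` of integers in `[2, (log x)^(k+1)]` with `𝔖({0} ∪ D) ≠ 0`. For `B = 1` this is the upper half
of Q1 for `k`. -/
def Upper (k : ℕ) (B : ℝ) : Prop :=
  ∀ ε : ℝ, 0 < ε → ∃ x₀ : ℝ, ∀ x : ℝ, x₀ ≤ x → ∀ D ∈ shifts k x, sing (insert 0 D) ≠ 0 →
    (tupleCount x (insert 0 D) : ℝ) ≤ (B + ε) * predicted k x D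

/-- The sets `D` of `k` shifts for which the Hardy-Littlewood asymptotic formula fails at `x` by more
than the factor `1 ± ε`. -/
noncomputable def exceptional (k : ℕ) (x ε : ℝ) : Finset (Finset ℕ) := by
  classical
  exact (shifts k x).filter (fun D => sing (insert 0 D) ≠ 0 ∧
    ε * predicted k x D < |(tupleCount x (insert 0 D) : ℝ) - predicted k x D|)

end Pool.Agent.U187.PT
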