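import Pool.Agent.U187.PT.Cnt
import Pool.Agent.Helper22K9.Trp.Sing

set_option autoImplicit false

/-! The sum of the singular series of unions of translates. -/

namespace Pool.Agent.U187.PT

open Finset Pool.Agent.H387R2

lemma per_cop (W : ℕ) (T : Finset ℕ) :
    Function.Periodic (fun n : ℕ => ∀ t ∈ T, Nat.Coprime W (n + t)) W := by
  intro n
  simp only [eq_iff_iff]
  refine forall₂_congr fun t _ => ?_
  have : n + W + t = (n + t) + W := by ring
  rw [this, Nat.coprime_add_self_right]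

lemma gT_count (W : ℕ) (T : Finset ℕ) : Uni.gT W T =
    W.count (fun n => ∀ t ∈ T, Nat.Coprime W (n + t)) := by
  unfold Uni.gT
  rw [Nat.count_eq_card_filter_range]

lemma block_sum (W : ℕ) (T : Finset ℕ) (q ν : ℕ) :
    ∑ h ∈ range (W * q), (if ∀ t ∈ T, Nat.Coprime W (ν + h + t) then 1 else 0) = q * Uni.gT W T := by
  induction q with
  | zero => simp
  | succ q ih =>
    rw [Nat.mul_succ, sum_range_add, ih, add_mul, one_mul]
    congr 1
    rw [gT_count, ← Nat.filter_Ico_card_eq_of_periodic (ν + W * q) W _ (per_cop W T), card_filter,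
      sum_Ico_eq_sum_range]
    rw [Nat.add_sub_cancel_left]
    apply sum_congr rfl
    intro j _
    rw [add_assoc ν]

lemma row_sum (W : ℕ) (hW : 0 < W) (T : Finset ℕ) (R ν : ℕ) :
    ∑ h ∈ range R, (if ∀ t ∈ T, Nat.Coprime W (ν + h + t) then 1 else 0) ≤
      (R / W + 1) * Uni.gT W T := by
  rw [← block_sum W T (R / W + 1) ν]
  apply sum_le_sum_of_subset
  apply range_subset_range.2
  exact (Nat.lt_mul_div_succ R hW).le

lemma sum_gT (W : ℕ) (hW : 0 < W) (m : ℕ) (T : Finset ℕ) (R : ℕ) :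
    ∑ h ∈ sepT m T (range R), Uni.gT W (un T h) ≤ W * ((R / W + 1) * Uni.gT W T) ^ m := by
  classical
  have h1 : ∀ h : Fin m → ℕ, Uni.gT W (un T h) =
      ∑ ν ∈ range W, ∏ i, (if ∀ t ∈ T, Nat.Coprime W (ν + h i + t) then 1 else 0) := by
    intro h
    unfold Uni.gT
    rw [card_filter]
    apply sum_congr rfl
    intro ν _
    rw [prod_ite_zero]
    simp only [prod_const_one]
    congr 1
    rw [eq_iff_iff]
    constructor
    · intro hu i _ t ht
      have := hu (t + h i) (mem_un.2 ⟨i, t, ht, rfl⟩)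
      rwa [show ν + h i + t = ν + (t + h i) by ring]
    · intro hu u huu
      obtain ⟨i, t, ht, rfl⟩ := mem_un.1 huu
      have := hu i (mem_univ i) t ht
      rwa [show ν + (t + h i) = ν + h i + t by ring]
  calc ∑ h ∈ sepT m T (range R), Uni.gT W (un T h)
      ≤ ∑ h ∈ Fintype.piFinset (fun _ : Fin m => range R), Uni.gT W (un T h) := by
        apply sum_le_sum_of_subset
        unfold sepT
        exact filter_subset _ _
    _ = ∑ ν ∈ range W, ∑ h ∈ Fintype.piFinset (fun _ : Fin m => range R),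
          ∏ i, (if ∀ t ∈ T, Nat.Coprime W (ν + h i + t) then 1 else 0) := by
        simp_rw [h1]
        rw [sum_comm]
    _ = ∑ ν ∈ range W, ∏ _i : Fin m,
          ∑ h ∈ range R, (if ∀ t ∈ T, Nat.Coprime W (ν + h + t) then 1 else 0) := by
        apply sum_congr rfl
        intro ν _
        rw [prod_univ_sum]
    _ ≤ ∑ ν ∈ range W, ((R / W + 1) * Uni.gT W T) ^ m := by
        apply sum_le_sum
        intro ν _
        rw [prod_const, card_univ, Fintype.card_fin]
        exact Nat.pow_le_pow_left (row_sum W hW T R ν) m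
    _ = _ := by rw [sum_const, card_range, smul_eq_mul]

/-- the average of the singular series of the unions of `m` translates of `T` is at most the `m`-th
power of the singular series of `T`, up to a factor close to `1` -/
theorem sum_CT (m R y : ℕ) (T : Finset ℕ) (hy : 1 ≤ y) (hTy : T.card ≤ y) {κ K : ℝ}
    (hκ : 0 < κ) (hκ' : κ ≤ 1 - (T.card : ℝ) ^ 2 / y) (hK : 1 ≤ K) {M : ℕ}
    (hM : ∀ t ∈ T, t + R ≤ M)
    (htt : ∀ n : ℕ, 1 ≤ n → n ≤ M → Pool.Agent.H386R2.HL.tt y n ≤ K) :
    ∑ h ∈ sepT m T (range R), Uni.CT (un T h) ≤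
      K ^ ((m * T.card) * (m * T.card)) * (((R : ℝ) + Uni.WW y) * (Uni.CT T / κ)) ^ m := by
  classical
  set W := Uni.WW y with hW
  have hW0 : 0 < W := Uni.WW_pos y
  have hWr : (0 : ℝ) < W := by exact_mod_cast hW0
  have hφ : (0 : ℝ) < Nat.totient W := by exact_mod_cast Nat.totient_pos.2 hW0
  have hmem : ∀ h ∈ sepT m T (range R), Sep T h ∧ ∀ i, h i < R := by
    intro h hh
    unfold sepT at hh
    rw [mem_filter, Fintype.mem_piFinset] at hh
    exact ⟨hh.2, fun i => mem_range.1 (hh.1 i)⟩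
  have h1 : ∀ h ∈ sepT m T (range R), Uni.CT (un T h) ≤
      K ^ ((m * T.card) * (m * T.card)) * (((W : ℝ) / Nat.totient W) ^ (m * T.card) *
        ((Uni.gT W (un T h) : ℝ) / W)) := by
    intro h hh
    obtain ⟨hs, hR⟩ := hmem h hh
    have h2 := Uni.CT_le (un T h) y hK (M := M) (by
      intro u hu
      obtain ⟨i, t, ht, rfl⟩ := mem_un.1 hu
      have := hM t ht
      have := hR i
      omega) htt
    rwa [card_un hs] at h2
  have h3 : ((∑ h ∈ sepT m T (range R), Uni.gT W (un T h) : ℕ) : ℝ) ≤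
      W * (((R : ℝ) / W + 1) * Uni.gT W T) ^ m := by
    have h4 : ((∑ h ∈ sepT m T (range R), Uni.gT W (un T h) : ℕ) : ℝ) ≤
        ((W * ((R / W + 1) * Uni.gT W T) ^ m : ℕ) : ℝ) := by
      exact_mod_cast sum_gT W hW0 m T R
    refine h4.trans ?_
    push_cast
    have h5 : ((R / W : ℕ) : ℝ) ≤ (R : ℝ) / W := Nat.cast_div_le
    gcongr
  have h6 : ((W : ℝ) / Nat.totient W) ^ T.card * ((Uni.gT W T : ℝ) / W) ≤ Uni.CT T / κ := by
    have h7 := Pool.Agent.Helper22K9.Trp.CT_ge' T y hy hTy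
    rw [le_div_iff₀ hκ]
    refine le_trans ?_ h7
    rw [mul_comm]
    apply mul_le_mul_of_nonneg_right hκ'
    positivity
  calc ∑ h ∈ sepT m T (range R), Uni.CT (un T h)
      ≤ ∑ h ∈ sepT m T (range R), K ^ ((m * T.card) * (m * T.card)) *
        (((W : ℝ) / Nat.totient W) ^ (m * T.card) * ((Uni.gT W (un T h) : ℝ) / W)) :=
        sum_le_sum h1
    _ = K ^ ((m * T.card) * (m * T.card)) * (((W : ℝ) / Nat.totient W) ^ (m * T.card) *
        (((∑ h ∈ sepT m T (range R), Uni.gT W (un T h) : ℕ) : ℝ) / W)) := by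
        push_cast
        rw [← mul_sum, ← mul_sum, sum_div]
    _ ≤ K ^ ((m * T.card) * (m * T.card)) * (((W : ℝ) / Nat.totient W) ^ (m * T.card) *
        ((W * (((R : ℝ) / W + 1) * Uni.gT W T) ^ m) / W)) := by gcongr
    _ = K ^ ((m * T.card) * (m * T.card)) *
        (((R : ℝ) + W) * (((W : ℝ) / Nat.totient W) ^ T.card * ((Uni.gT W T : ℝ) / W))) ^ m := by
        have e1 : (W : ℝ) * (((R : ℝ) / W + 1) * Uni.gT W T) ^ m / W =
            (((R : ℝ) / W + 1) * Uni.gT W T) ^ m := by
          rw [mul_comm, mul_div_assoc, div_self hWr.ne', mul_one]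
        have e2 : ((R : ℝ) / W + 1) * Uni.gT W T = ((R : ℝ) + W) * ((Uni.gT W T : ℝ) / W) := by
          field_simp
        have e3 : ((W : ℝ) / Nat.totient W) ^ (m * T.card) =
            (((W : ℝ) / Nat.totient W) ^ T.card) ^ m := by rw [← pow_mul, mul_comm]
        rw [e1, e2, e3, ← mul_pow]
        congr 2
        ring
    _ ≤ _ := by
        apply mul_le_mul_of_nonneg_left _ (by positivity)
        apply pow_le_pow_left₀ (by positivity)
        exact mul_le_mul_of_nonneg_left h6 (by positivity)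

end Pool.Agent.U187.PT
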