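import Pool.Agent.U187.PT.Bnd
import Pool.Agent.U187.PT.Ser
import Pool.Agent.Y840.PT.Shift

set_option autoImplicit false

/-! The constants for `m (k + 1)` forms are at least the `m`-th powers of those for `k + 1` forms. -/

namespace Pool.Agent.U187.PT

open Finset Filter Topology Pool.Agent.H387R2

/-- the main term and the error term in the final comparison -/
noncomputable def fin1 (k m : ℕ) (A c x : ℝ) : ℝ :=
  A * (Real.exp (4 * (m * (k + 1)) / Real.log (⌊Real.log (Real.log x)⌋₊ : ℝ))) ^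
      ((m * (k + 1)) * (m * (k + 1))) *
    (1 + 4 * Real.exp (-(Real.log (Real.log x) / 2))) ^ m *
    ((1 - ((k : ℝ) + 1) ^ 2 / (⌊Real.log (Real.log x)⌋₊ : ℝ)) ^ m)⁻¹ +
  (Real.log x ^ (2 * (m * (k + 1))) / x + (m * (k + 1)) * (Real.log x ^ (m * (k + 1)) / x)) *
    (c ^ m)⁻¹

lemma ty : Tendsto (fun x : ℝ => (⌊Real.log (Real.log x)⌋₊ : ℝ)) atTop atTop :=
  tendsto_natCast_atTop_atTop.comp
    (tendsto_nat_floor_atTop.comp (Real.tendsto_log_atTop.comp Real.tendsto_log_atTop))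

lemma logpow (n : ℕ) : Tendsto (fun x : ℝ => Real.log x ^ n / x) atTop (𝓝 0) := by
  have h := Real.isLittleO_pow_log_id_atTop (n := n)
  exact h.tendsto_div_nhds_zero

lemma fin1_tendsto (k m : ℕ) (A c : ℝ) : Tendsto (fin1 k m A c) atTop (𝓝 A) := by
  have h1 : Tendsto (fun x : ℝ => Real.exp (4 * (m * (k + 1)) /
      Real.log (⌊Real.log (Real.log x)⌋₊ : ℝ))) atTop (𝓝 1) := by
    rw [← Real.exp_zero]
    apply (Real.continuous_exp.tendsto 0).comp
    exact (tendsto_const_nhds).div_atTop (Real.tendsto_log_atTop.comp ty)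
  have h2 : Tendsto (fun x : ℝ => Real.exp (-(Real.log (Real.log x) / 2))) atTop (𝓝 0) := by
    apply Real.tendsto_exp_neg_atTop_nhds_zero.comp
    exact (Real.tendsto_log_atTop.comp Real.tendsto_log_atTop).atTop_div_const (by norm_num)
  have h3 : Tendsto (fun x : ℝ => ((k : ℝ) + 1) ^ 2 / (⌊Real.log (Real.log x)⌋₊ : ℝ)) atTop (𝓝 0) :=
    (tendsto_const_nhds).div_atTop ty
  have h4 := ((((tendsto_const_nhds (x := A)).mul (h1.pow ((m * (k + 1)) * (m * (k + 1))))).mul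
    (((tendsto_const_nhds (x := (1 : ℝ))).add ((tendsto_const_nhds (x := (4 : ℝ))).mul h2)).pow m)).mul
    ((((tendsto_const_nhds (x := (1 : ℝ))).sub h3).pow m).inv₀ (by norm_num))).add
    (((logpow (2 * (m * (k + 1)))).add ((tendsto_const_nhds (x := ((m : ℝ) * (k + 1)))).mul
      (logpow (m * (k + 1))))).mul (tendsto_const_nhds (x := (c ^ m)⁻¹)))
  have e : A * 1 ^ ((m * (k + 1)) * (m * (k + 1))) * (1 + 4 * 0) ^ m * ((1 - 0) ^ m)⁻¹ +
      (0 + (m * (k + 1)) * 0) * (c ^ m)⁻¹ = A := by simp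
  rw [e] at h4
  exact h4

lemma ev_cond (k m : ℕ) (hm : 2 ≤ m) {A β c ε : ℝ} (hc : 0 < c) (hε : 0 < ε) (hAβ : A < β) :
    ∀ᶠ x : ℝ in atTop, 4 ≤ Real.log x ∧ 1 ≤ x ∧
      2 ≤ ⌊Real.log (Real.log x)⌋₊ ∧ 2 * (k + 1) ^ 2 ≤ ⌊Real.log (Real.log x)⌋₊ ∧
      fin1 k m A c x < (⌊x⌋₊ : ℝ) / x * β ∧
      (m : ℝ) ^ 2 * ((k : ℝ) + 1) ^ 2 + Real.log x ^ (2 * (m * (k + 1))) / x ≤
        ε / 2 * c * (Real.log x / 4) := by
  have h1 : Tendsto (fun x : ℝ => (⌊x⌋₊ : ℝ) / x * β) atTop (𝓝 (1 * β)) :=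
    (tendsto_nat_floor_div_atTop (R := ℝ)).mul_const β
  rw [one_mul] at h1
  have h2 := (fin1_tendsto k m A c).eventually_lt h1 hAβ
  have h3 : Tendsto (fun x : ℝ => ε / 2 * c * (Real.log x / 4)) atTop atTop :=
    (Real.tendsto_log_atTop.atTop_div_const (by norm_num)).const_mul_atTop (by positivity)
  have h4 : Tendsto (fun x : ℝ => (m : ℝ) ^ 2 * ((k : ℝ) + 1) ^ 2 +
      Real.log x ^ (2 * (m * (k + 1))) / x) atTop (𝓝 ((m : ℝ) ^ 2 * ((k : ℝ) + 1) ^ 2 + 0)) :=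
    tendsto_const_nhds.add (logpow _)
  have h5 := h4.eventually_lt_const (lt_add_one _)
  have tn : Tendsto (fun x : ℝ => ⌊Real.log (Real.log x)⌋₊) atTop atTop :=
    tendsto_nat_floor_atTop.comp (Real.tendsto_log_atTop.comp Real.tendsto_log_atTop)
  filter_upwards [Real.tendsto_log_atTop.eventually_ge_atTop 4, eventually_ge_atTop 1,
    tn.eventually_ge_atTop 2, tn.eventually_ge_atTop (2 * (k + 1) ^ 2), h2, h5,
    h3.eventually_ge_atTop ((m : ℝ) ^ 2 * ((k : ℝ) + 1) ^ 2 + 0 + 1)] with x a1 a2 a3 a4 a5 a6 a7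
  exact ⟨a1, a2, a3, a4, a5, by linarith⟩

set_option maxHeartbeats 4000000 in
/-- **The power law.** -/
theorem power (k m : ℕ) (hm : 2 ≤ m) (B : ℝ) (hB : 0 ≤ B) (h : Upper (m * (k + 1) - 1) B) :
    Upper k (B ^ (1 / (m : ℝ))) := by
  classical
  intro ε hε
  obtain ⟨b, hb⟩ : ∃ b, b = B ^ (1 / (m : ℝ)) := ⟨_, rfl⟩
  rw [← hb]
  have hm0 : (m : ℝ) ≠ 0 := by
    have : (0 : ℝ) < m := by exact_mod_cast (by omega : 0 < m)
    exact this.ne'
  have hb0 : 0 ≤ b := by rw [hb]; exact Real.rpow_nonneg hB _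
  have hbm : b ^ m = B := by
    rw [hb, ← Real.rpow_natCast, ← Real.rpow_mul hB, one_div, inv_mul_cancel₀ hm0, Real.rpow_one]
  set β : ℝ := (b + ε / 2) ^ m with hβ
  have hBβ : B < β := by
    rw [← hbm, hβ]
    exact pow_lt_pow_left₀ (by linarith) hb0 (by omega)
  set η : ℝ := (β - B) / 2 with hη
  have hη0 : 0 < η := by rw [hη]; linarith
  have hAβ : B + η < β := by rw [hη]; linarith
  obtain ⟨x₁, hx₁⟩ := h η hη0
  obtain ⟨c, hc, hcT⟩ := Pool.Agent.Y840.PT.CT_ge (k + 1)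
  obtain ⟨x₂, hx₂⟩ := eventually_atTop.1 (ev_cond k m hm hc hε hAβ)
  refine ⟨max x₁ x₂, fun x hx D hD hs => ?_⟩
  obtain ⟨c1, c2, c3, c4, c5, c6⟩ := hx₂ x ((le_max_right _ _).trans hx)
  have hup := hx₁ x ((le_max_left _ _).trans hx)
  by_contra hcon
  push Not at hcon
  set L := Real.log x with hL
  have hL0 : 0 < L := by linarith
  have hx0 : 0 < x := by linarith
  set n : ℕ := m * (k + 1) with hn
  have hk' : n - 1 + 1 = n := by
    have : 0 < n := Nat.mul_pos (by omega) (by omega)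
    omega
  obtain ⟨T, hT⟩ : ∃ T, T = insert 0 D := ⟨_, rfl⟩
  have hDc : D.card = k ∧ D ⊆ Icc 2 ⌊L ^ (k + 1)⌋₊ := by
    unfold shifts at hD
    rw [mem_powersetCard] at hD
    exact ⟨hD.2, hD.1⟩
  have h0D : 0 ∉ D := fun h0 => by
    have := (mem_Icc.1 (hDc.2 h0)).1
    omega
  have hTc : T.card = k + 1 := by rw [hT, card_insert_of_notMem h0D, hDc.1]
  have hTL : ∀ t ∈ T, t ≤ ⌊L ^ (k + 1)⌋₊ := by
    intro t ht
    rw [hT, mem_insert] at ht
    rcases ht with rfl | ht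
    · exact Nat.zero_le _
    · exact (mem_Icc.1 (hDc.2 ht)).2
  rw [← hT] at hs hcon
  rw [sing_eq] at hs
  have hS0 : 0 < Uni.CT T := lt_of_le_of_ne (Uni.CT_nonneg T) (Ne.symm hs)
  have hSc : c ≤ Uni.CT T := hcT T hTc hS0
  set S := Uni.CT T with hS
  -- the parameters
  set P : ℝ := L ^ n with hP
  have hPk : P = (L ^ (k + 1)) ^ m := by rw [hP, hn, mul_comm, pow_mul]
  have hLk1 : L ≤ L ^ (k + 1) := by
    calc L = L ^ 1 := (pow_one _).symm
      _ ≤ L ^ (k + 1) := pow_le_pow_right₀ (by linarith) (by omega)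
  have hLk4 : 4 ≤ L ^ (k + 1) := c1.trans hLk1
  have hPsq : (L ^ (k + 1)) ^ 2 ≤ P := by
    rw [hPk]
    exact pow_le_pow_right₀ (by linarith) hm
  have hP2 : 2 * L ^ (k + 1) ≤ P := by nlinarith
  have hP0 : 0 < P := by positivity
  set R : ℕ := ⌊P / 2⌋₊ with hR
  have hRle : (R : ℝ) ≤ P / 2 := Nat.floor_le (by linarith)
  have hRge : P / 4 ≤ R := by
    have h1 : P / 2 < R + 1 := Nat.lt_floor_add_one _
    have h2 : (16 : ℝ) ≤ P := by nlinarith
    linarith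
  have hR0 : (0 : ℝ) < R := by linarith
  set M : ℕ := ⌊P⌋₊ with hM
  have hMle : (M : ℝ) ≤ P := Nat.floor_le hP0.le
  have hTM : ∀ t ∈ T, t + R ≤ M := by
    intro t ht
    apply Nat.le_floor
    push_cast
    have h1 : (t : ℝ) ≤ L ^ (k + 1) := by
      have h2 : (t : ℝ) ≤ (⌊L ^ (k + 1)⌋₊ : ℝ) := by exact_mod_cast hTL t ht
      exact h2.trans (Nat.floor_le (by positivity))
    linarith
  set y : ℕ := ⌊Real.log L⌋₊ with hy
  have hlogL : 0 < Real.log L := Real.log_pos (by linarith)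
  have hyle : (y : ℝ) ≤ Real.log L := Nat.floor_le hlogL.le
  have hylt : Real.log L < y + 1 := Nat.lt_floor_add_one _
  have hy2 : (2 : ℝ) ≤ y := by exact_mod_cast c3
  have hy0 : (0 : ℝ) < y := by linarith
  have hlogy : 0 < Real.log y := Real.log_pos (by linarith)
  set K : ℝ := Real.exp (4 * (m * (k + 1)) / Real.log y) with hK
  have hK1 : 1 ≤ K := Real.one_le_exp (by positivity)
  have htt : ∀ j : ℕ, 1 ≤ j → j ≤ M → Pool.Agent.H386R2.HL.tt y j ≤ K := by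
    intro j hj1 hjM
    refine (Uni.tt_le y j c3 hj1).trans ?_
    rw [hK]
    apply Real.exp_le_exp.2
    have hj0 : (0 : ℝ) < j := by exact_mod_cast hj1
    have hjP : (j : ℝ) ≤ P := by
      have : (j : ℝ) ≤ M := by exact_mod_cast hjM
      linarith
    have h1 : Real.log j ≤ (m * (k + 1)) * (2 * y) := by
      calc Real.log j ≤ Real.log P := Real.log_le_log hj0 hjP
        _ = (n : ℝ) * Real.log L := by rw [hP, Real.log_pow]
        _ ≤ (n : ℝ) * (2 * y) := by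
            apply mul_le_mul_of_nonneg_left _ (Nat.cast_nonneg _)
            linarith
        _ = _ := by rw [hn]; push_cast; ring
    rw [div_le_div_iff₀ (by positivity) hlogy]
    have h2 : 2 * Real.log j * Real.log y ≤ 2 * ((m * (k + 1)) * (2 * y)) * Real.log y := by
      gcongr
    calc 2 * Real.log j * Real.log y ≤ 2 * ((m * (k + 1)) * (2 * y)) * Real.log y := h2
      _ = _ := by ring
  set κ : ℝ := 1 - ((k : ℝ) + 1) ^ 2 / y with hκ
  have hκ0 : 0 < κ := by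
    rw [hκ, sub_pos, div_lt_one hy0]
    have h1 : (2 * ((k : ℝ) + 1) ^ 2) ≤ y := by exact_mod_cast c4
    have h2 : 0 < ((k : ℝ) + 1) ^ 2 := by positivity
    linarith
  -- the sum of the singular series
  have hyT : T.card ≤ y := by
    rw [hTc]
    have : k + 1 ≤ (k + 1) ^ 2 := Nat.le_self_pow (by norm_num) _
    omega
  have hser := sum_CT m R y T (by omega) hyT (κ := κ) (K := K) hκ0
    (by rw [hTc]; push_cast; exact le_of_eq rfl) hK1 hTM htt
  rw [hTc] at hser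
  -- the upper bound for the unions of translates
  have hupU : ∀ g ∈ sepT m T (range R), (cnt ⌊x⌋₊ (un T g) : ℝ) ≤
      (B + η) * (Uni.CT (un T g) * x / P) + (M + n) := by
    intro g hg
    have hg' : Sep T g ∧ ∀ i, g i < R := by
      unfold sepT at hg
      rw [mem_filter, Fintype.mem_piFinset] at hg
      exact ⟨hg.2, fun i => mem_range.1 (hg.1 i)⟩
    have h1 := cnt_le (n - 1) hx0.le hL0.le (by linarith : (0:ℝ) ≤ B + η) hup (un T g)
      (by rw [card_un hg'.1, hTc, hk']) M (by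
        intro u hu
        obtain ⟨i, t, ht, rfl⟩ := mem_un.1 hu
        have := hTM t ht
        have := hg'.2 i
        omega) (by rw [hk'])
    rw [hk'] at h1
    have e1 : (((n - 1 : ℕ) : ℝ) + 1) = n := by
      have : ((n - 1 + 1 : ℕ) : ℝ) = n := by rw [hk']
      push_cast at this
      exact this
    rw [e1] at h1
    exact h1
  have hsepc : ((sepT m T (range R)).card : ℝ) ≤ (R : ℝ) ^ m := by
    have h1 : (sepT m T (range R)).card ≤ R ^ m := by
      unfold sepT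
      refine (card_filter_le _ _).trans ?_
      rw [Fintype.card_piFinset, prod_const, card_range, card_univ, Fintype.card_fin]
    exact_mod_cast h1
  have hsum : ∑ g ∈ sepT m T (range R), (cnt ⌊x⌋₊ (un T g) : ℝ) ≤
      (B + η) * (x / P) * (K ^ (n * n) * (((R : ℝ) + Uni.WW y) * (S / κ)) ^ m) +
        (R : ℝ) ^ m * (P + n) := by
    calc ∑ g ∈ sepT m T (range R), (cnt ⌊x⌋₊ (un T g) : ℝ)
        ≤ ∑ g ∈ sepT m T (range R), ((B + η) * (Uni.CT (un T g) * x / P) + (M + n)) :=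
          sum_le_sum hupU
      _ = (B + η) * (x / P) * (∑ g ∈ sepT m T (range R), Uni.CT (un T g)) +
          ((sepT m T (range R)).card : ℝ) * (M + n) := by
          rw [sum_add_distrib, sum_const, nsmul_eq_mul, mul_sum]
          congr 1
          apply sum_congr rfl
          intro g _
          ring
      _ ≤ _ := by
          gcongr
  -- Jensen's inequality
  set μ : ℝ := (b + ε / 2) * R * S / L ^ (k + 1) with hμ
  have hN1 : 1 ≤ ⌊x⌋₊ := Nat.le_floor (by exact_mod_cast c2)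
  have hNx : (⌊x⌋₊ : ℝ) ≤ x := Nat.floor_le hx0.le
  have hμ0 : 0 ≤ μ := by positivity
  have hjen : (μ + (m : ℝ) ^ 2 * (T.card : ℝ) ^ 2) * (⌊x⌋₊ : ℝ) ≤
      (R : ℝ) * ((cnt ⌊x⌋₊ T : ℝ) - R) := by
    rw [hTc]
    push_cast
    have h1 : (b + ε) * (S * x / L ^ (k + 1)) < (cnt ⌊x⌋₊ T : ℝ) := by
      unfold predicted at hcon
      rw [← hT, sing_eq, tupleCount_eq] at hcon
      exact hcon
    have h2 : (μ + (m : ℝ) ^ 2 * ((k : ℝ) + 1) ^ 2) * (⌊x⌋₊ : ℝ) ≤
        (μ + (m : ℝ) ^ 2 * ((k : ℝ) + 1) ^ 2) * x := by gcongr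
    have h3 : (R : ℝ) * ((b + ε) * (S * x / L ^ (k + 1)) - R) ≤
        (R : ℝ) * ((cnt ⌊x⌋₊ T : ℝ) - R) := by gcongr
    refine h2.trans (le_trans ?_ h3)
    have h4 : ε / 2 * c * (L / 4) ≤ ε / 2 * S * ((R : ℝ) / L ^ (k + 1)) := by
      have h5 : L / 4 ≤ (R : ℝ) / L ^ (k + 1) := by
        rw [le_div_iff₀ (by positivity)]
        have h6 : L / 4 * L ^ (k + 1) ≤ P / 4 := by nlinarith
        linarith
      gcongr
    have h5 : (R : ℝ) ^ 2 / x ≤ L ^ (2 * n) / x := by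
      have h6 : (R : ℝ) ^ 2 ≤ P ^ 2 := pow_le_pow_left₀ hR0.le (by linarith) 2
      rw [hP, ← pow_mul, mul_comm n 2] at h6
      gcongr
    have h6 : (m : ℝ) ^ 2 * ((k : ℝ) + 1) ^ 2 + (R : ℝ) ^ 2 / x ≤
        ε / 2 * S * ((R : ℝ) / L ^ (k + 1)) := by linarith
    have h7 : ((m : ℝ) ^ 2 * ((k : ℝ) + 1) ^ 2 + (R : ℝ) ^ 2 / x) * x ≤
        ε / 2 * S * ((R : ℝ) / L ^ (k + 1)) * x := mul_le_mul_of_nonneg_right h6 hx0.le
    have e1 : ((m : ℝ) ^ 2 * ((k : ℝ) + 1) ^ 2 + (R : ℝ) ^ 2 / x) * x =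
        (m : ℝ) ^ 2 * ((k : ℝ) + 1) ^ 2 * x + (R : ℝ) ^ 2 := by
      field_simp
    have e2 : μ * x = (R : ℝ) * (b + ε / 2) * (S * x / L ^ (k + 1)) := by
      rw [hμ]; ring
    have e3 : ε / 2 * S * ((R : ℝ) / L ^ (k + 1)) * x = (R : ℝ) * (ε / 2) * (S * x / L ^ (k + 1)) := by
      ring
    rw [e1, e3] at h7
    rw [add_mul, e2]
    nlinarith [h7]
  have hJ := jensen m (by omega) ⌊x⌋₊ R hN1 T hμ0 hjen
  have hμm : μ ^ m = β * ((R : ℝ) ^ m * S ^ m) / P := by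
    rw [hμ, hPk, hβ, div_pow, mul_pow, mul_pow]
    ring
  rw [hμm] at hJ
  have hfin := hJ.trans hsum
  -- compare
  have hW : (Uni.WW y : ℝ) ≤ 4 * Real.exp (-(Real.log L / 2)) * R := by
    have h1 : (Uni.WW y : ℝ) ≤ 4 ^ y := by
      exact_mod_cast Pool.Agent.W218.TX.WW_le y
    have h2 : (4 : ℝ) ^ y ≤ Real.exp (3 / 2 * Real.log L) := by
      have h3 : (4 : ℝ) ^ y = Real.exp (y * Real.log 4) := by
        rw [← Real.log_pow, Real.exp_log (by positivity)]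
      rw [h3]
      apply Real.exp_le_exp.2
      have h4 : Real.log 4 ≤ 3 / 2 := by
        have : (4 : ℝ) = 2 ^ 2 := by norm_num
        rw [this, Real.log_pow]
        have := Real.log_two_lt_d9
        push_cast
        linarith
      have h5 : 0 ≤ Real.log (4 : ℝ) := Real.log_nonneg (by norm_num)
      calc (y : ℝ) * Real.log 4 ≤ Real.log L * (3 / 2) := by gcongr
        _ = _ := by ring
    have h3 : Real.exp (3 / 2 * Real.log L) = Real.exp (-(Real.log L / 2)) * L ^ 2 := by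
      have : L ^ 2 = Real.exp (2 * Real.log L) := by
        rw [mul_comm, Real.exp_mul, Real.exp_log hL0]
        norm_cast
      rw [this, ← Real.exp_add]
      congr 1
      ring
    have h4 : L ^ 2 ≤ P := by
      calc L ^ 2 ≤ (L ^ (k + 1)) ^ 2 := pow_le_pow_left₀ hL0.le hLk1 2
        _ ≤ P := hPsq
    calc (Uni.WW y : ℝ) ≤ Real.exp (-(Real.log L / 2)) * L ^ 2 := by
          rw [← h3]; exact h1.trans h2
      _ ≤ Real.exp (-(Real.log L / 2)) * (4 * R) := by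
          gcongr
          linarith
      _ = _ := by ring
  have hRm : 0 < (R : ℝ) ^ m := by positivity
  have hSm : 0 < S ^ m := by positivity
  have h1 : ((R : ℝ) + Uni.WW y) ^ m ≤ ((R : ℝ) * (1 + 4 * Real.exp (-(Real.log L / 2)))) ^ m := by
    apply pow_le_pow_left₀ (by positivity)
    linarith
  have h2 : (((R : ℝ) + Uni.WW y) * (S / κ)) ^ m ≤
      (R : ℝ) ^ m * S ^ m * ((1 + 4 * Real.exp (-(Real.log L / 2))) ^ m * (κ ^ m)⁻¹) := by
    calc (((R : ℝ) + Uni.WW y) * (S / κ)) ^ m = ((R : ℝ) + Uni.WW y) ^ m * (S / κ) ^ m := mul_pow _ _ _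
      _ ≤ ((R : ℝ) * (1 + 4 * Real.exp (-(Real.log L / 2)))) ^ m * (S / κ) ^ m := by gcongr
      _ = _ := by
          rw [mul_pow, div_pow]
          ring
  have h3 : (P + n) ≤ (x / P) * (S ^ m) *
      ((L ^ (2 * n) / x + (n : ℝ) * (L ^ n / x)) * (c ^ m)⁻¹) := by
    have e1 : L ^ (2 * n) = P * P := by rw [hP, two_mul, pow_add]
    rw [e1]
    have h4 : (1 : ℝ) ≤ S ^ m * (c ^ m)⁻¹ := by
      rw [← div_eq_mul_inv, one_le_div (by positivity)]
      exact pow_le_pow_left₀ hc.le hSc m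
    have e2 : (x / P) * (S ^ m) * ((P * P / x + (n : ℝ) * (P / x)) * (c ^ m)⁻¹) =
        (P + n) * (S ^ m * (c ^ m)⁻¹) := by
      field_simp
    rw [e2]
    have h5 : 0 ≤ P + (n : ℝ) := by positivity
    nlinarith
  have h4 : (⌊x⌋₊ : ℝ) * (β * ((R : ℝ) ^ m * S ^ m) / P) ≤
      (x / P) * ((R : ℝ) ^ m * S ^ m) * fin1 k m (B + η) c x := by
    refine hfin.trans ?_
    have e1 : (x / P) * ((R : ℝ) ^ m * S ^ m) * fin1 k m (B + η) c x =
        (B + η) * (x / P) * (K ^ (n * n) * ((R : ℝ) ^ m * S ^ m *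
          ((1 + 4 * Real.exp (-(Real.log L / 2))) ^ m * (κ ^ m)⁻¹))) +
        (R : ℝ) ^ m * ((x / P) * (S ^ m) *
          ((L ^ (2 * n) / x + (n : ℝ) * (L ^ n / x)) * (c ^ m)⁻¹)) := by
      unfold fin1
      rw [← hL, ← hy, ← hK, ← hκ, hn]
      push_cast
      ring
    rw [e1]
    have hK0 : 0 ≤ K ^ (n * n) := by positivity
    have hxP : 0 ≤ x / P := by positivity
    have hBη : 0 ≤ B + η := by linarith
    gcongr
  have h5 : (⌊x⌋₊ : ℝ) / x * β ≤ fin1 k m (B + η) c x := by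
    have e1 : (⌊x⌋₊ : ℝ) * (β * ((R : ℝ) ^ m * S ^ m) / P) =
        (x / P) * ((R : ℝ) ^ m * S ^ m) * ((⌊x⌋₊ : ℝ) / x * β) := by
      field_simp
    rw [e1] at h4
    exact le_of_mul_le_mul_left h4 (by positivity)
  linarith

end Pool.Agent.U187.PT
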