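import Pool.Agent.U187.PT.All
import Pool.Agent.U187.PT.Pow

set_option autoImplicit false

/-! Prime tuples with short shifts: subexponential constants suffice. -/

namespace Pool.Agent.U187.PT

open Finset Filter Topology Pool.Agent.H387R2

lemma predicted_nonneg (k : ℕ) {x : ℝ} (hx : 1 ≤ x) (D : Finset ℕ) : 0 ≤ predicted k x D := by
  unfold predicted
  rw [sing_eq]
  have h1 := Uni.CT_nonneg (insert 0 D)
  have h2 : 0 ≤ Real.log x := Real.log_nonneg hx
  positivity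

lemma Upper.mono {k : ℕ} {B C : ℝ} (h : Upper k B) (hBC : B ≤ C) : Upper k C := by
  intro ε hε
  obtain ⟨x₀, hx₀⟩ := h ε hε
  refine ⟨max x₀ 1, fun x hx D hD hs => (hx₀ x ((le_max_left _ _).trans hx) D hD hs).trans ?_⟩
  have := predicted_nonneg k ((le_max_right _ _).trans hx) D
  gcongr

lemma upper_of_forall {k : ℕ} {B : ℝ} (h : ∀ C, B < C → Upper k C) : Upper k B := by
  intro ε hε
  obtain ⟨x₀, hx₀⟩ := h (B + ε / 2) (by linarith) (ε / 2) (by positivity)
  refine ⟨x₀, fun x hx D hD hs => (hx₀ x hx D hD hs).trans (le_of_eq ?_)⟩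
  ring

theorem power' (k m : ℕ) (hm : 1 ≤ m) (B : ℝ) (hB : 0 ≤ B) (h : Upper (m * (k + 1) - 1) B) :
    Upper k (B ^ (1 / (m : ℝ))) := by
  rcases Nat.lt_or_ge m 2 with h1 | h1
  · have : m = 1 := by omega
    subst this
    simpa using h
  · exact power k m h1 B hB h

/-- if the sharp bound fails, then the constants grow exponentially -/
theorem dichotomy : (∀ k : ℕ, 1 ≤ k → Upper k 1) ∨
    ∃ k : ℕ, 1 ≤ k ∧ ∃ c : ℝ, 1 < c ∧ ∀ m : ℕ, 1 ≤ m → ¬ Upper (m * (k + 1) - 1) (c ^ m) := by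
  by_contra hcon
  push Not at hcon
  obtain ⟨⟨k, hk, h1⟩, h2⟩ := hcon
  apply h1
  apply upper_of_forall
  intro c hc
  obtain ⟨m, hm, h3⟩ := h2 k hk c hc
  have h4 := power' k m hm (c ^ m) (by positivity) h3
  have hm0 : (m : ℝ) ≠ 0 := by exact_mod_cast (by omega : m ≠ 0)
  have h5 : (c ^ m) ^ (1 / (m : ℝ)) = c := by
    rw [← Real.rpow_natCast, ← Real.rpow_mul (by linarith), mul_one_div, div_self hm0,
      Real.rpow_one]
  rwa [h5] at h4

end Pool.Agent.U187.PT
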